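import Mathlib

set_option autoImplicit false
set_option linter.unusedSectionVars false

/-!
# Realisation of rings as endomorphism rings of torsion-free groups of the same rank
-/

namespace Pool.Agent.X280.CE

/-- centrally essential rings -/
def CentEss (Q : Type) [Ring Q] : Prop :=
  ∀ a : Q, a ≠ 0 → ∃ c ∈ Subring.center Q, ∃ d ∈ Subring.center Q, c ≠ 0 ∧ d ≠ 0 ∧ a * c = d

/-- localisation of a subring at a prime -/
def Loc {E : Type} [Ring E] [Algebra ℚ E] (R : Subring E) (p : ℕ) (x : E) : Prop :=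
  ∃ m : ℤ, ¬ (p : ℤ) ∣ m ∧ (m : ℚ) • x ∈ R

/-- realisation data -/
structure RD (E : Type) [Ring E] [Algebra ℚ E] where
  R : Subring E
  h1 : ∀ e : E, ∃ N : ℕ, N ≠ 0 ∧ (N : ℚ) • e ∈ R
  h2 : ∀ P : Set ℕ, P.Infinite → (∀ p ∈ P, p.Prime) → ∀ c : E,
    (∀ p ∈ P, Loc R p ((p : ℚ)⁻¹ • c)) → c = 0
  S1 : Set E
  S1c : S1.Countable
  S1R : ∀ s ∈ S1, s ∈ R
  S1sq : ∀ s ∈ S1, s * s = 0
  S2 : Set E
  S2c : S2.Countable
  S2R : ∀ s ∈ S2, s ∈ R
  S2sq : ∀ s ∈ S2, s * s = s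
  S2n : ∀ s ∈ S2, 1 - s ∈ S2
  span : ∀ K : Submodule ℚ E, 1 ∈ K → (∀ s ∈ S1, s ∈ K) → (∀ s ∈ S2, s ∈ K) → K = ⊤

/-- every countable nonempty set is the image of the primes with infinite fibres -/
theorem exists_enum {Y : Type} [Countable Y] [Nonempty Y] :
    ∃ τ : ℕ → Y, ∀ y, {p : ℕ | p.Prime ∧ τ p = y}.Infinite := by
  obtain ⟨e, he⟩ := exists_surjective_nat Y
  refine ⟨fun p => e (Nat.unpair (Nat.count Nat.Prime p)).1, fun y => ?_⟩
  obtain ⟨i, rfl⟩ := he y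
  have hinj : Function.Injective (fun j : ℕ => Nat.nth Nat.Prime (Nat.pair i j)) := by
    intro a b h
    have h1 := Nat.nth_injective Nat.infinite_setOfPred_prime h
    have h2 := congrArg Nat.unpair h1
    rw [Nat.unpair_pair, Nat.unpair_pair] at h2
    exact congrArg Prod.snd h2
  refine Set.Infinite.mono ?_ (Set.infinite_range_of_injective hinj)
  rintro _ ⟨j, rfl⟩
  refine ⟨Nat.prime_nth_prime _, ?_⟩
  change e (Nat.unpair (Nat.count Nat.Prime (Nat.nth Nat.Prime (Nat.pair i j)))).1 = e i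
  rw [Nat.count_nth_of_infinite Nat.infinite_setOfPred_prime, Nat.unpair_pair]

section Loc

variable {E : Type} [Ring E] [Algebra ℚ E] {R : Subring E} {p : ℕ}

theorem int_smul_mem {x : E} (n : ℤ) (hx : x ∈ R) : (n : ℚ) • x ∈ R := by
  rw [Int.cast_smul_eq_zsmul]
  exact zsmul_mem hx n

theorem nat_smul_mem {x : E} (n : ℕ) (hx : x ∈ R) : (n : ℚ) • x ∈ R := by
  rw [Nat.cast_smul_eq_nsmul]
  exact nsmul_mem hx n

theorem not_dvd_one {p : ℕ} (hp : p.Prime) : ¬ (p : ℤ) ∣ 1 := by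
  intro h
  exact hp.one_lt.ne' (by exact_mod_cast Int.eq_one_of_dvd_one (by positivity) h)

theorem Loc.of_mem (hp : p.Prime) {x : E} (hx : x ∈ R) : Loc R p x :=
  ⟨1, not_dvd_one hp, by rwa [Int.cast_one, one_smul]⟩

theorem Loc.add (hp : p.Prime) {x y : E} (hx : Loc R p x) (hy : Loc R p y) : Loc R p (x + y) := by
  obtain ⟨m, hm, hm2⟩ := hx
  obtain ⟨n, hn, hn2⟩ := hy
  refine ⟨m * n, ?_, ?_⟩
  · intro h
    rcases (Nat.prime_iff_prime_int.1 hp).dvd_or_dvd h with h | h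
    · exact hm h
    · exact hn h
  · have : ((m * n : ℤ) : ℚ) • (x + y) = (n : ℚ) • ((m : ℚ) • x) + (m : ℚ) • ((n : ℚ) • y) := by
      push_cast
      module
    rw [this]
    exact R.add_mem (int_smul_mem n hm2) (int_smul_mem m hn2)

theorem Loc.neg {x : E} (hx : Loc R p x) : Loc R p (-x) := by
  obtain ⟨m, hm, hm2⟩ := hx
  exact ⟨m, hm, by rw [smul_neg]; exact R.neg_mem hm2⟩

theorem Loc.sub (hp : p.Prime) {x y : E} (hx : Loc R p x) (hy : Loc R p y) : Loc R p (x - y) := by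
  rw [sub_eq_add_neg]
  exact hx.add hp hy.neg

theorem Loc.mul_right {x r : E} (hx : Loc R p x) (hr : r ∈ R) : Loc R p (x * r) := by
  obtain ⟨m, hm, hm2⟩ := hx
  exact ⟨m, hm, by rw [← smul_mul_assoc]; exact R.mul_mem hm2 hr⟩

theorem Loc.mul_left {x r : E} (hx : Loc R p x) (hr : r ∈ R) : Loc R p (r * x) := by
  obtain ⟨m, hm, hm2⟩ := hx
  exact ⟨m, hm, by rw [← mul_smul_comm]; exact R.mul_mem hr hm2⟩

end Loc

namespace RD

variable {E : Type} [Ring E] [Algebra ℚ E] (D : RD E)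

instance : Countable (D.S1 ⊕ D.S2 ⊕ Unit) := by
  have h1 : Countable D.S1 := D.S1c
  have h2 : Countable D.S2 := D.S2c
  infer_instance

/-- enumeration of the types by primes -/
noncomputable def tau : ℕ → (D.S1 ⊕ D.S2 ⊕ Unit) :=
  (exists_enum (Y := D.S1 ⊕ D.S2 ⊕ Unit)).choose

theorem tau_inf (y : D.S1 ⊕ D.S2 ⊕ Unit) : {p : ℕ | p.Prime ∧ D.tau p = y}.Infinite :=
  (exists_enum (Y := D.S1 ⊕ D.S2 ⊕ Unit)).choose_spec y

/-- local denominators -/
noncomputable def v (p : ℕ) : E :=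
  match D.tau p with
  | Sum.inl s => (p : ℚ) • (1 : E) - (s : E)
  | Sum.inr (Sum.inl e) => (p : ℚ) • (e : E) + (1 - (e : E))
  | Sum.inr (Sum.inr _) => 1

theorem v_mem (p : ℕ) : D.v p ∈ D.R := by
  unfold v
  rcases D.tau p with s | e | _
  · exact D.R.sub_mem (nat_smul_mem p D.R.one_mem) (D.S1R _ s.2)
  · exact D.R.add_mem (nat_smul_mem p (D.S2R _ e.2))
      (D.R.sub_mem D.R.one_mem (D.S2R _ e.2))
  · exact D.R.one_mem

/-- the group -/
def A : AddSubgroup E where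
  carrier := {a | ∀ p : ℕ, p.Prime → Loc D.R p (a * D.v p)}
  add_mem' := by
    intro a b ha hb p hp
    rw [add_mul]
    exact (ha p hp).add hp (hb p hp)
  zero_mem' := by
    intro p hp
    rw [zero_mul]
    exact Loc.of_mem hp D.R.zero_mem
  neg_mem' := by
    intro a ha p hp
    rw [neg_mul]
    exact (ha p hp).neg

theorem mem_A (a : E) : a ∈ D.A ↔ ∀ p : ℕ, p.Prime → Loc D.R p (a * D.v p) := Iff.rfl

theorem R_le_A {a : E} (ha : a ∈ D.R) : a ∈ D.A := by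
  intro p hp
  exact Loc.of_mem hp (D.R.mul_mem ha (D.v_mem p))

theorem mul_mem_A {r a : E} (hr : r ∈ D.R) (ha : a ∈ D.A) : r * a ∈ D.A := by
  intro p hp
  rw [mul_assoc]
  exact (ha p hp).mul_left hr

/-- an element `u` with `u v_p ∈ R` and `p^k u ∈ R` is in `A` -/
theorem u_mem {p : ℕ} (hp : p.Prime) {u : E} (h1 : u * D.v p ∈ D.R) (k : ℕ)
    (h2 : ((p : ℚ) ^ k) • u ∈ D.R) : u ∈ D.A := by
  intro l hl
  by_cases h : l = p
  · subst h
    exact Loc.of_mem hl h1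
  · refine ⟨((p ^ k : ℕ) : ℤ), ?_, ?_⟩
    · intro hd
      have hd' : l ∣ p ^ k := by exact_mod_cast hd
      have := hl.dvd_of_dvd_pow hd'
      exact h ((Nat.prime_dvd_prime_iff_eq hl hp).1 this)
    · have : (((p ^ k : ℕ) : ℤ) : ℚ) = (p : ℚ) ^ k := by push_cast; rfl
      rw [this, ← smul_mul_assoc]
      exact D.R.mul_mem h2 (D.v_mem l)

theorem one_mem_A : (1 : E) ∈ D.A := D.R_le_A D.R.one_mem

theorem cancel {y : D.S1 ⊕ D.S2 ⊕ Unit} {c : E}
    (h : ∀ p : ℕ, p.Prime → D.tau p = y → Loc D.R p ((p : ℚ)⁻¹ • c)) : c = 0 :=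
  D.h2 _ (D.tau_inf y) (fun _ hp => hp.1) c (fun p hp => h p hp.1 hp.2)

theorem kill_S1 (g : D.A →+ D.A) (hg : g ⟨1, D.one_mem_A⟩ = 0) (s : E) (hs : s ∈ D.S1) :
    g ⟨s, D.R_le_A (D.S1R s hs)⟩ = 0 := by
  set c : E := (g ⟨s, D.R_le_A (D.S1R s hs)⟩ : E) with hc
  -- main relation
  have key : ∀ p : ℕ, p.Prime → D.tau p = Sum.inl ⟨s, hs⟩ →
      Loc D.R p ((p : ℚ)⁻¹ • c - ((p : ℚ)⁻¹ * (p : ℚ)⁻¹) • (c * s)) := by
    intro p hp hτ
    have hv : D.v p = (p : ℚ) • (1 : E) - s := by unfold v; rw [hτ]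
    have hp0 : (p : ℚ) ≠ 0 := by exact_mod_cast hp.ne_zero
    set u : E := ((p : ℚ)⁻¹ * (p : ℚ)⁻¹) • ((p : ℚ) • (1 : E) + s) with hu
    have huv : u * D.v p = 1 := by
      rw [hv, hu, smul_mul_assoc, add_mul, mul_sub, mul_sub, D.S1sq s hs]
      simp only [smul_mul_assoc, mul_smul_comm, one_mul, mul_one, smul_sub, smul_add, smul_smul,
        sub_zero]
      have e1 : (p : ℚ)⁻¹ * (p : ℚ)⁻¹ * ((p : ℚ) * (p : ℚ)) = 1 := by field_simp
      rw [e1, one_smul]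
      abel
    have hpu : (p : ℚ) ^ 2 • u = (p : ℚ) • (1 : E) + s := by
      rw [hu, smul_smul]
      have e1 : (p : ℚ) ^ 2 * ((p : ℚ)⁻¹ * (p : ℚ)⁻¹) = 1 := by field_simp
      rw [e1, one_smul]
    have huA : u ∈ D.A := D.u_mem hp (by rw [huv]; exact D.R.one_mem) 2 (by
      rw [hpu]; exact D.R.add_mem (nat_smul_mem p D.R.one_mem) (D.S1R s hs))
    -- apply g
    have h1 : (p ^ 2) • (⟨u, huA⟩ : D.A) = p • (⟨1, D.one_mem_A⟩ : D.A) +
        ⟨s, D.R_le_A (D.S1R s hs)⟩ := by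
      apply Subtype.ext
      change (p ^ 2) • u = p • (1 : E) + s
      rw [← Nat.cast_smul_eq_nsmul ℚ, ← Nat.cast_smul_eq_nsmul ℚ, Nat.cast_pow, hpu]
    have h2 : (p ^ 2) • g ⟨u, huA⟩ = g ⟨s, D.R_le_A (D.S1R s hs)⟩ := by
      rw [← map_nsmul, h1, map_add, map_nsmul, hg, smul_zero, zero_add]
    have h3 : (p : ℚ) ^ 2 • (g ⟨u, huA⟩ : E) = c := by
      rw [hc, ← h2]
      change _ = (p ^ 2) • (g ⟨u, huA⟩ : E)
      rw [← Nat.cast_smul_eq_nsmul ℚ, Nat.cast_pow]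
    have h4 : (g ⟨u, huA⟩ : E) = ((p : ℚ)⁻¹ * (p : ℚ)⁻¹) • c := by
      rw [← h3, smul_smul]
      have e1 : (p : ℚ)⁻¹ * (p : ℚ)⁻¹ * (p : ℚ) ^ 2 = 1 := by field_simp
      rw [e1, one_smul]
    have h5 := (g ⟨u, huA⟩).2 p hp
    rw [hv, h4, smul_mul_assoc, mul_sub, mul_smul_comm, mul_one, smul_sub, smul_smul] at h5
    have e1 : (p : ℚ)⁻¹ * (p : ℚ)⁻¹ * (p : ℚ) = (p : ℚ)⁻¹ := by field_simp
    rwa [e1] at h5
  have hcs : c * s = 0 := by
    apply D.cancel (y := Sum.inl ⟨s, hs⟩)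
    intro p hp hτ
    have h := (key p hp hτ).mul_right (D.S1R s hs)
    rw [sub_mul, smul_mul_assoc, smul_mul_assoc, mul_assoc c s s, D.S1sq s hs, mul_zero, smul_zero,
      sub_zero] at h
    exact h
  apply Subtype.ext
  change c = 0
  apply D.cancel (y := Sum.inl ⟨s, hs⟩)
  intro p hp hτ
  have h := key p hp hτ
  rwa [hcs, smul_zero, sub_zero] at h

theorem kill_S2 (g : D.A →+ D.A) (hg : g ⟨1, D.one_mem_A⟩ = 0) (e : E) (he : e ∈ D.S2) :
    (g ⟨e, D.R_le_A (D.S2R e he)⟩ : E) * (1 - e) = 0 := by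
  set c : E := (g ⟨e, D.R_le_A (D.S2R e he)⟩ : E) with hc
  apply D.cancel (y := Sum.inr (Sum.inl ⟨e, he⟩))
  intro p hp hτ
  have hv : D.v p = (p : ℚ) • e + (1 - e) := by unfold v; rw [hτ]
  have hp0 : (p : ℚ) ≠ 0 := by exact_mod_cast hp.ne_zero
  have hee := D.S2sq e he
  have e1 : e * (1 - e) = 0 := by rw [mul_sub, mul_one, hee, sub_self]
  have e2 : (1 - e) * e = 0 := by rw [sub_mul, one_mul, hee, sub_self]
  have e3 : (1 - e) * (1 - e) = 1 - e := by rw [mul_sub, mul_one, e2, sub_zero]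
  have e4 : D.v p * (1 - e) = 1 - e := by
    rw [hv, add_mul, smul_mul_assoc, e1, smul_zero, zero_add, e3]
  set u : E := (p : ℚ)⁻¹ • e + (1 - e) with hu
  have hpu : (p : ℚ) ^ 1 • u = e + (p : ℚ) • (1 - e) := by
    rw [hu, pow_one, smul_add, smul_smul, mul_inv_cancel₀ hp0, one_smul]
  have huv : u * D.v p = 1 := by
    rw [hv, hu, add_mul, mul_add, mul_add, smul_mul_assoc, smul_mul_assoc, mul_smul_comm,
      mul_smul_comm, hee, e1, e2, e3, smul_smul, inv_mul_cancel₀ hp0, one_smul]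
    simp
  have huA : u ∈ D.A := D.u_mem hp (by rw [huv]; exact D.R.one_mem) 1 (by
    rw [hpu]
    exact D.R.add_mem (D.S2R e he) (nat_smul_mem p (D.R.sub_mem D.R.one_mem (D.S2R e he))))
  have h1 : p • (⟨u, huA⟩ : D.A) = ⟨e, D.R_le_A (D.S2R e he)⟩ + (p • (⟨1, D.one_mem_A⟩ : D.A) -
      p • ⟨e, D.R_le_A (D.S2R e he)⟩) := by
    apply Subtype.ext
    change p • u = e + (p • (1 : E) - p • e)
    rw [pow_one] at hpu
    rw [← Nat.cast_smul_eq_nsmul ℚ, hpu, ← Nat.cast_smul_eq_nsmul ℚ, ← Nat.cast_smul_eq_nsmul ℚ,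
      smul_sub]
  have h2 : p • g ⟨u, huA⟩ = g ⟨e, D.R_le_A (D.S2R e he)⟩ - p • g ⟨e, D.R_le_A (D.S2R e he)⟩ := by
    rw [← map_nsmul, h1, map_add, map_sub, map_nsmul, map_nsmul, hg, smul_zero, zero_sub,
      sub_eq_add_neg]
  have h3 : (p : ℚ) • (g ⟨u, huA⟩ : E) = c - (p : ℚ) • c := by
    have := congrArg Subtype.val h2
    change p • (g ⟨u, huA⟩ : E) = c - p • c at this
    rwa [← Nat.cast_smul_eq_nsmul ℚ, ← Nat.cast_smul_eq_nsmul ℚ] at this
  have h4 : (g ⟨u, huA⟩ : E) = (p : ℚ)⁻¹ • c - c := by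
    have := congrArg (fun x => (p : ℚ)⁻¹ • x) h3
    simp only [smul_sub, smul_smul, inv_mul_cancel₀ hp0, one_smul] at this
    exact this
  have h5 := ((g ⟨u, huA⟩).2 p hp).mul_right (D.R.sub_mem D.R.one_mem (D.S2R e he))
  rw [mul_assoc, e4, h4, sub_mul, smul_mul_assoc] at h5
  have h6 := ((g ⟨e, D.R_le_A (D.S2R e he)⟩).2 p hp).mul_right
    (D.R.sub_mem D.R.one_mem (D.S2R e he))
  rw [mul_assoc, e4] at h6
  have h7 := h5.add hp h6
  rwa [sub_add_cancel] at h7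

theorem kill_S2' (g : D.A →+ D.A) (hg : g ⟨1, D.one_mem_A⟩ = 0) (e : E) (he : e ∈ D.S2) :
    g ⟨e, D.R_le_A (D.S2R e he)⟩ = 0 := by
  have h1 := D.kill_S2 g hg e he
  have h2 := D.kill_S2 g hg (1 - e) (D.S2n e he)
  have h3 : g ⟨1 - e, D.R_le_A (D.S2R _ (D.S2n e he))⟩ = - g ⟨e, D.R_le_A (D.S2R e he)⟩ := by
    have : (⟨1 - e, D.R_le_A (D.S2R _ (D.S2n e he))⟩ : D.A) = ⟨1, D.one_mem_A⟩ -
      ⟨e, D.R_le_A (D.S2R e he)⟩ := rfl
    rw [this, map_sub, hg, zero_sub]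
  rw [h3, sub_sub_cancel] at h2
  apply Subtype.ext
  change (g ⟨e, D.R_le_A (D.S2R e he)⟩ : E) = 0
  have h4 : ((-g ⟨e, D.R_le_A (D.S2R e he)⟩ : D.A) : E) = - (g ⟨e, D.R_le_A (D.S2R e he)⟩ : E) := rfl
  rw [h4, neg_mul, neg_eq_zero] at h2
  rw [mul_sub, mul_one, h2, sub_zero] at h1
  exact h1

theorem exists_mult (a : E) : ∃ N : ℕ, N ≠ 0 ∧ (N : ℚ) • a ∈ D.A := by
  obtain ⟨N, hN, h⟩ := D.h1 a
  exact ⟨N, hN, D.R_le_A h⟩

/-- an endomorphism killing 1 is zero -/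
theorem kill (g : D.A →+ D.A) (hg : g ⟨1, D.one_mem_A⟩ = 0) : g = 0 := by
  let K : Submodule ℚ E :=
    { carrier := {e | ∃ N : ℕ, N ≠ 0 ∧ ∃ h : (N : ℚ) • e ∈ D.A, g ⟨_, h⟩ = 0}
      add_mem' := by
        rintro a b ⟨N, hN, h, hg⟩ ⟨M, hM, h', hg'⟩
        have e1 : ((N * M : ℕ) : ℚ) • (a + b) = M • ((N : ℚ) • a) + N • ((M : ℚ) • b) := by
          rw [← Nat.cast_smul_eq_nsmul ℚ, ← Nat.cast_smul_eq_nsmul ℚ]
          push_cast
          module
        have h3 : ((N * M : ℕ) : ℚ) • (a + b) ∈ D.A := by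
          rw [e1]
          exact D.A.add_mem (D.A.nsmul_mem h M) (D.A.nsmul_mem h' N)
        refine ⟨N * M, mul_ne_zero hN hM, h3, ?_⟩
        have : (⟨_, h3⟩ : D.A) = M • ⟨_, h⟩ + N • ⟨_, h'⟩ := Subtype.ext e1
        rw [this, map_add, map_nsmul, map_nsmul, hg, hg']
        simp
      zero_mem' := by
        refine ⟨1, one_ne_zero, by rw [smul_zero]; exact D.A.zero_mem, ?_⟩
        have : (⟨((1 : ℕ) : ℚ) • (0 : E), by rw [smul_zero]; exact D.A.zero_mem⟩ : D.A) = 0 :=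
          Subtype.ext (smul_zero _)
        rw [this, map_zero]
      smul_mem' := by
        rintro c a ⟨N, hN, h, hg⟩
        have hd : (c.den : ℚ) ≠ 0 := by exact_mod_cast c.den_ne_zero
        have e1 : ((c.den * N : ℕ) : ℚ) • (c • a) = c.num • ((N : ℚ) • a) := by
          rw [← Int.cast_smul_eq_zsmul ℚ, smul_smul, smul_smul]
          congr 1
          have := Rat.mul_den_eq_num c
          push_cast
          linear_combination (N : ℚ) * this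
        have h3 : ((c.den * N : ℕ) : ℚ) • (c • a) ∈ D.A := by
          rw [e1]
          exact D.A.zsmul_mem h _
        refine ⟨c.den * N, mul_ne_zero c.den_ne_zero hN, h3, ?_⟩
        have : (⟨_, h3⟩ : D.A) = c.num • ⟨_, h⟩ := Subtype.ext e1
        rw [this, map_zsmul, hg, smul_zero] }
  have hmem : ∀ (e : E) (h : e ∈ D.A), g ⟨e, h⟩ = 0 → e ∈ K := by
    intro e h hg
    refine ⟨1, one_ne_zero, by rw [Nat.cast_one, one_smul]; exact h, ?_⟩
    have : (⟨((1 : ℕ) : ℚ) • e, by rw [Nat.cast_one, one_smul]; exact h⟩ : D.A) = ⟨e, h⟩ :=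
      Subtype.ext (show ((1 : ℕ) : ℚ) • e = e by rw [Nat.cast_one, one_smul])
    rw [this, hg]
  have hK : K = ⊤ := D.span K (hmem _ _ hg)
    (fun s hs => hmem _ _ (D.kill_S1 g hg s hs)) (fun s hs => hmem _ _ (D.kill_S2' g hg s hs))
  ext ⟨a, ha⟩
  have h1 : a ∈ K := by rw [hK]; trivial
  obtain ⟨N, hN, h, hgN⟩ := h1
  have h2 : (⟨_, h⟩ : D.A) = N • ⟨a, ha⟩ := by
    apply Subtype.ext
    change _ = N • a
    rw [← Nat.cast_smul_eq_nsmul ℚ]
  rw [h2, map_nsmul] at hgN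
  have h3 : N • (g ⟨a, ha⟩ : E) = 0 := congrArg Subtype.val hgN
  rw [← Nat.cast_smul_eq_nsmul ℚ, smul_eq_zero] at h3
  rcases h3 with h3 | h3
  · exact absurd (by exact_mod_cast h3) hN
  · exact h3

/-- every endomorphism is a left multiplication -/
theorem endo (f : D.A →+ D.A) (a : E) (ha : a ∈ D.A) :
    (f ⟨a, ha⟩ : E) = (f ⟨1, D.one_mem_A⟩ : E) * a := by
  set b : E := (f ⟨1, D.one_mem_A⟩ : E) with hb
  obtain ⟨N, hN, hNb⟩ := D.h1 b
  let L : D.A →+ D.A :=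
    { toFun := fun x => ⟨((N : ℚ) • b) * x, D.mul_mem_A hNb x.2⟩
      map_zero' := Subtype.ext (mul_zero _)
      map_add' := fun x y => Subtype.ext (mul_add _ _ _) }
  have hg : (N • f - L) ⟨1, D.one_mem_A⟩ = 0 := by
    apply Subtype.ext
    change N • b - ((N : ℚ) • b) * 1 = 0
    rw [mul_one, Nat.cast_smul_eq_nsmul, sub_self]
  have h0 := D.kill _ hg
  have h1 := congrArg Subtype.val (DFunLike.congr_fun h0 ⟨a, ha⟩)
  change N • (f ⟨a, ha⟩ : E) - ((N : ℚ) • b) * a = 0 at h1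
  rw [← Nat.cast_smul_eq_nsmul ℚ, smul_mul_assoc, ← smul_sub, smul_eq_zero] at h1
  rcases h1 with h1 | h1
  · exact absurd (by exact_mod_cast h1) hN
  · exact sub_eq_zero.1 h1

/-- left multiplication by elements of `R` -/
def lm (r : E) (hr : r ∈ D.R) : AddMonoid.End D.A :=
  { toFun := fun x => ⟨r * x, D.mul_mem_A hr x.2⟩
    map_zero' := Subtype.ext (mul_zero _)
    map_add' := fun x y => Subtype.ext (mul_add _ _ _) }

theorem lm_apply (r : E) (hr : r ∈ D.R) (x : D.A) : (D.lm r hr x : E) = r * x := rfl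

/-- value at one -/
def ev (f : AddMonoid.End D.A) : E := (f ⟨1, D.one_mem_A⟩ : E)

theorem ev_lm (r : E) (hr : r ∈ D.R) : D.ev (D.lm r hr) = r := mul_one r

theorem apply_eq (f : AddMonoid.End D.A) (x : D.A) : (f x : E) = D.ev f * x :=
  D.endo f x.1 x.2

theorem ev_mul (f g : AddMonoid.End D.A) : D.ev (f * g) = D.ev f * D.ev g :=
  D.apply_eq f (g ⟨1, D.one_mem_A⟩)

theorem ev_add (f g : AddMonoid.End D.A) : D.ev (f + g) = D.ev f + D.ev g := rfl

theorem ev_one : D.ev 1 = 1 := rfl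

theorem ev_inj {f g : AddMonoid.End D.A} (h : D.ev f = D.ev g) : f = g := by
  ext x
  rw [D.apply_eq, D.apply_eq, h]

theorem ev_zero : D.ev 0 = 0 := rfl

/-- central essentiality is inherited by the endomorphism ring -/
theorem centEss (h : ∀ a : E, a ≠ 0 → ∃ c ∈ Subring.center E, a * c ∈ Subring.center E ∧ a * c ≠ 0) :
    CentEss (AddMonoid.End D.A) := by
  intro f hf
  have hb : D.ev f ≠ 0 := fun h0 => hf (D.ev_inj (by rw [h0, ev_zero]))
  obtain ⟨c, hc, hbc, hbc0⟩ := h _ hb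
  obtain ⟨N, hN, hNc⟩ := D.h1 c
  have hNq : (N : ℚ) ≠ 0 := by exact_mod_cast hN
  have hcc : (N : ℚ) • c ∈ Subring.center E := by
    rw [Subring.mem_center_iff] at hc ⊢
    intro g
    rw [mul_smul_comm, smul_mul_assoc, hc g]
  have hcent : ∀ k : AddMonoid.End D.A, D.ev k ∈ Subring.center E →
      k ∈ Subring.center (AddMonoid.End D.A) := by
    intro k hk
    rw [Subring.mem_center_iff] at hk ⊢
    intro g
    apply D.ev_inj
    rw [ev_mul, ev_mul, hk]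
  refine ⟨D.lm _ hNc, hcent _ (by rw [ev_lm]; exact hcc), f * D.lm _ hNc, hcent _ ?_, ?_, ?_, rfl⟩
  · rw [ev_mul, ev_lm, mul_smul_comm]
    rw [Subring.mem_center_iff] at hbc ⊢
    intro g
    rw [mul_smul_comm, smul_mul_assoc, hbc g]
  · intro h0
    have := D.ev_lm _ hNc
    rw [h0, ev_zero] at this
    apply hbc0
    have hc0 : c = 0 := by
      rcases smul_eq_zero.1 this.symm with h | h
      · exact absurd h hNq
      · exact h
    rw [hc0, mul_zero]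
  · intro h0
    have := D.ev_mul f (D.lm _ hNc)
    rw [h0, ev_zero, ev_lm, mul_smul_comm] at this
    rcases smul_eq_zero.1 this.symm with h | h
    · exact hNq h
    · exact hbc0 h

theorem noncomm {r s : E} (hr : r ∈ D.R) (hs : s ∈ D.R) (h : r * s ≠ s * r) :
    ∃ f g : AddMonoid.End D.A, f * g ≠ g * f := by
  refine ⟨D.lm r hr, D.lm s hs, fun h0 => h ?_⟩
  have := congrArg D.ev h0
  rwa [ev_mul, ev_mul, ev_lm, ev_lm] at this

theorem tfree (x : D.A) (n : ℕ) (hn : n ≠ 0) (h : n • x = 0) : x = 0 := by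
  have h1 : n • (x : E) = 0 := congrArg Subtype.val h
  rw [← Nat.cast_smul_eq_nsmul ℚ, smul_eq_zero] at h1
  rcases h1 with h1 | h1
  · exact absurd (by exact_mod_cast h1) hn
  · exact Subtype.ext h1

end RD

end Pool.Agent.X280.CE
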