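import Mathlib
import Pool.Agent.X280.CE.Real

set_option autoImplicit false
set_option linter.unusedSectionVars false

namespace Pool.Agent.X280.CE

/-- the six-dimensional algebra with basis `1, x, y, z, p, q`, where `xz = zx = xy = p`,
`yz = zy = q` and all other products of `x, y, z, p, q` vanish -/
@[ext] structure E6 (K : Type) where
  a : K
  x : K
  y : K
  z : K
  p : K
  q : K

namespace E6

variable {K : Type} [CommRing K]

instance : Zero (E6 K) := ⟨⟨0, 0, 0, 0, 0, 0⟩⟩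
instance : One (E6 K) := ⟨⟨1, 0, 0, 0, 0, 0⟩⟩
instance : Add (E6 K) := ⟨fun u v => ⟨u.a + v.a, u.x + v.x, u.y + v.y, u.z + v.z, u.p + v.p,
  u.q + v.q⟩⟩
instance : Neg (E6 K) := ⟨fun u => ⟨-u.a, -u.x, -u.y, -u.z, -u.p, -u.q⟩⟩
instance : Mul (E6 K) := ⟨fun u v => ⟨u.a * v.a, u.a * v.x + u.x * v.a, u.a * v.y + u.y * v.a,
  u.a * v.z + u.z * v.a, u.a * v.p + u.p * v.a + u.x * v.z + u.z * v.x + u.x * v.y,
  u.a * v.q + u.q * v.a + u.y * v.z + u.z * v.y⟩⟩

@[simp] theorem zero_a : (0 : E6 K).a = 0 := rfl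
@[simp] theorem zero_x : (0 : E6 K).x = 0 := rfl
@[simp] theorem zero_y : (0 : E6 K).y = 0 := rfl
@[simp] theorem zero_z : (0 : E6 K).z = 0 := rfl
@[simp] theorem zero_p : (0 : E6 K).p = 0 := rfl
@[simp] theorem zero_q : (0 : E6 K).q = 0 := rfl
@[simp] theorem one_a : (1 : E6 K).a = 1 := rfl
@[simp] theorem one_x : (1 : E6 K).x = 0 := rfl
@[simp] theorem one_y : (1 : E6 K).y = 0 := rfl
@[simp] theorem one_z : (1 : E6 K).z = 0 := rfl
@[simp] theorem one_p : (1 : E6 K).p = 0 := rfl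
@[simp] theorem one_q : (1 : E6 K).q = 0 := rfl
@[simp] theorem add_a (u v : E6 K) : (u + v).a = u.a + v.a := rfl
@[simp] theorem add_x (u v : E6 K) : (u + v).x = u.x + v.x := rfl
@[simp] theorem add_y (u v : E6 K) : (u + v).y = u.y + v.y := rfl
@[simp] theorem add_z (u v : E6 K) : (u + v).z = u.z + v.z := rfl
@[simp] theorem add_p (u v : E6 K) : (u + v).p = u.p + v.p := rfl
@[simp] theorem add_q (u v : E6 K) : (u + v).q = u.q + v.q := rfl
@[simp] theorem neg_a (u : E6 K) : (-u).a = -u.a := rfl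
@[simp] theorem neg_x (u : E6 K) : (-u).x = -u.x := rfl
@[simp] theorem neg_y (u : E6 K) : (-u).y = -u.y := rfl
@[simp] theorem neg_z (u : E6 K) : (-u).z = -u.z := rfl
@[simp] theorem neg_p (u : E6 K) : (-u).p = -u.p := rfl
@[simp] theorem neg_q (u : E6 K) : (-u).q = -u.q := rfl
@[simp] theorem mul_a (u v : E6 K) : (u * v).a = u.a * v.a := rfl
@[simp] theorem mul_x (u v : E6 K) : (u * v).x = u.a * v.x + u.x * v.a := rfl
@[simp] theorem mul_y (u v : E6 K) : (u * v).y = u.a * v.y + u.y * v.a := rfl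
@[simp] theorem mul_z (u v : E6 K) : (u * v).z = u.a * v.z + u.z * v.a := rfl
@[simp] theorem mul_p (u v : E6 K) : (u * v).p =
  u.a * v.p + u.p * v.a + u.x * v.z + u.z * v.x + u.x * v.y := rfl
@[simp] theorem mul_q (u v : E6 K) : (u * v).q =
  u.a * v.q + u.q * v.a + u.y * v.z + u.z * v.y := rfl

instance : Ring (E6 K) where
  add_assoc u v w := by ext <;> simp [add_assoc]
  zero_add u := by ext <;> simp
  add_zero u := by ext <;> simp
  add_comm u v := by ext <;> simp [add_comm]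
  neg_add_cancel u := by ext <;> simp
  left_distrib u v w := by ext <;> simp <;> ring
  right_distrib u v w := by ext <;> simp <;> ring
  zero_mul u := by ext <;> simp
  mul_zero u := by ext <;> simp
  mul_assoc u v w := by ext <;> simp <;> ring
  one_mul u := by ext <;> simp
  mul_one u := by ext <;> simp
  nsmul := nsmulRec
  zsmul := zsmulRec

/-- scalars -/
def C : K →+* E6 K where
  toFun c := ⟨c, 0, 0, 0, 0, 0⟩
  map_zero' := rfl
  map_one' := rfl
  map_add' a b := by ext <;> simp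
  map_mul' a b := by ext <;> simp

@[simp] theorem C_a (c : K) : (C c : E6 K).a = c := rfl
@[simp] theorem C_x (c : K) : (C c : E6 K).x = 0 := rfl
@[simp] theorem C_y (c : K) : (C c : E6 K).y = 0 := rfl
@[simp] theorem C_z (c : K) : (C c : E6 K).z = 0 := rfl
@[simp] theorem C_p (c : K) : (C c : E6 K).p = 0 := rfl
@[simp] theorem C_q (c : K) : (C c : E6 K).q = 0 := rfl

instance : Algebra K (E6 K) where
  smul c u := ⟨c * u.a, c * u.x, c * u.y, c * u.z, c * u.p, c * u.q⟩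
  algebraMap := C
  commutes' c u := by ext <;> simp [mul_comm]
  smul_def' c u := by
    change (⟨c * u.a, c * u.x, c * u.y, c * u.z, c * u.p, c * u.q⟩ : E6 K) = _
    ext <;> simp

@[simp] theorem smul_a (c : K) (u : E6 K) : (c • u).a = c * u.a := rfl
@[simp] theorem smul_x (c : K) (u : E6 K) : (c • u).x = c * u.x := rfl
@[simp] theorem smul_y (c : K) (u : E6 K) : (c • u).y = c * u.y := rfl
@[simp] theorem smul_z (c : K) (u : E6 K) : (c • u).z = c * u.z := rfl
@[simp] theorem smul_p (c : K) (u : E6 K) : (c • u).p = c * u.p := rfl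
@[simp] theorem smul_q (c : K) (u : E6 K) : (c • u).q = c * u.q := rfl

@[simp] theorem sub_a (u v : E6 K) : (u - v).a = u.a - v.a := by rw [sub_eq_add_neg, sub_eq_add_neg]; rfl
@[simp] theorem sub_x (u v : E6 K) : (u - v).x = u.x - v.x := by rw [sub_eq_add_neg, sub_eq_add_neg]; rfl
@[simp] theorem sub_y (u v : E6 K) : (u - v).y = u.y - v.y := by rw [sub_eq_add_neg, sub_eq_add_neg]; rfl
@[simp] theorem sub_z (u v : E6 K) : (u - v).z = u.z - v.z := by rw [sub_eq_add_neg, sub_eq_add_neg]; rfl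
@[simp] theorem sub_p (u v : E6 K) : (u - v).p = u.p - v.p := by rw [sub_eq_add_neg, sub_eq_add_neg]; rfl
@[simp] theorem sub_q (u v : E6 K) : (u - v).q = u.q - v.q := by rw [sub_eq_add_neg, sub_eq_add_neg]; rfl

def eX : E6 K := ⟨0, 1, 0, 0, 0, 0⟩
def eY : E6 K := ⟨0, 0, 1, 0, 0, 0⟩
def eZ : E6 K := ⟨0, 0, 0, 1, 0, 0⟩
def eP : E6 K := ⟨0, 0, 0, 0, 1, 0⟩
def eQ : E6 K := ⟨0, 0, 0, 0, 0, 1⟩

theorem center_of {u : E6 K} (hx : u.x = 0) (hy : u.y = 0) : u ∈ Subring.center (E6 K) := by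
  rw [Subring.mem_center_iff]
  intro g
  ext
  · simp [mul_comm]
  · simp [hx, mul_comm]
  · simp [hy, mul_comm]
  · simp; ring
  · simp [hx, hy]; ring
  · simp [hy]; ring

/-- strong central essentiality over a domain -/
theorem centEss [IsDomain K] (u : E6 K) (hu : u ≠ 0) :
    ∃ c ∈ Subring.center (E6 K), u * c ∈ Subring.center (E6 K) ∧ u * c ≠ 0 := by
  by_cases ha : u.a = 0
  · by_cases hxy : u.x = 0 ∧ u.y = 0
    · exact ⟨1, Subring.one_mem _, by rw [mul_one]; exact center_of hxy.1 hxy.2, by rwa [mul_one]⟩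
    · refine ⟨eZ, center_of rfl rfl, center_of (by simp [eZ, ha]) (by simp [eZ, ha]), ?_⟩
      intro h
      have h1 := congrArg E6.p h
      have h2 := congrArg E6.q h
      simp [eZ, ha] at h1 h2
      exact hxy ⟨h1, h2⟩
  · refine ⟨eP, center_of rfl rfl, center_of (by simp [eP]) (by simp [eP]), ?_⟩
    intro h
    have h1 := congrArg E6.p h
    simp [eP] at h1
    exact ha h1

/-- integral elements -/
def RZ : Subring (E6 ℚ) where
  carrier := {u | ∃ n : E6 ℤ, u = ⟨n.a, n.x, n.y, n.z, n.p, n.q⟩}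
  mul_mem' := by
    rintro _ _ ⟨n, rfl⟩ ⟨m, rfl⟩
    exact ⟨n * m, by ext <;> simp⟩
  one_mem' := ⟨1, by ext <;> simp⟩
  add_mem' := by
    rintro _ _ ⟨n, rfl⟩ ⟨m, rfl⟩
    exact ⟨n + m, by ext <;> simp⟩
  zero_mem' := ⟨0, by ext <;> simp⟩
  neg_mem' := by
    rintro _ ⟨n, rfl⟩
    exact ⟨-n, by ext <;> simp⟩

/-- a rational number divisible by infinitely many primes is zero -/
theorem rat_zero (P : Set ℕ) (hP : P.Infinite) (hp : ∀ p ∈ P, p.Prime) (c : ℚ)
    (h : ∀ p ∈ P, ∃ m : ℤ, ¬ (p : ℤ) ∣ m ∧ ∃ n : ℤ, (m : ℚ) * ((p : ℚ)⁻¹ * c) = n) : c = 0 := by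
  by_contra hc
  have hnum : c.num ≠ 0 := Rat.num_ne_zero.2 hc
  apply hP
  apply Set.Finite.subset (Set.finite_le_nat (c.num.natAbs))
  intro p hpP
  obtain ⟨m, hm, n, hn⟩ := h p hpP
  have hp0 : (p : ℚ) ≠ 0 := by exact_mod_cast (hp p hpP).ne_zero
  have hd : (c.den : ℚ) ≠ 0 := by exact_mod_cast c.den_ne_zero
  have h1 : m * c.num = p * (n * c.den) := by
    have h2 : (m : ℚ) * c = p * n := by
      rw [← hn]; field_simp
    have h3 := Rat.mul_den_eq_num c
    have h4 : ((m * c.num : ℤ) : ℚ) = ((p * (n * c.den) : ℤ) : ℚ) := by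
      push_cast
      rw [← h3, ← mul_assoc, h2]
      ring
    exact_mod_cast h4
  have h5 : (p : ℤ) ∣ m * c.num := ⟨_, h1⟩
  have h6 : (p : ℤ) ∣ c.num := by
    rcases (Nat.prime_iff_prime_int.1 (hp p hpP)).dvd_or_dvd h5 with h | h
    · exact absurd h hm
    · exact h
  exact Nat.le_of_dvd (Int.natAbs_pos.2 hnum) (Int.natCast_dvd.1 h6)

end E6

end Pool.Agent.X280.CE
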