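import Mathlib
import Pool.Agent.X280.CE.Real

set_option autoImplicit false
set_option linter.unusedSectionVars false

/-!
# Realisation of rings as endomorphism rings: nilpotent generators
-/

namespace Pool.Agent.X280.CE

/-- realisation data -/
structure RN (E : Type) [Ring E] [Algebra ℚ E] where
  R : Subring E
  h1 : ∀ e : E, ∃ N : ℕ, N ≠ 0 ∧ (N : ℚ) • e ∈ R
  h2 : ∀ P : Set ℕ, P.Infinite → (∀ p ∈ P, p.Prime) → ∀ c : E,
    (∀ p ∈ P, Loc R p ((p : ℚ)⁻¹ • c)) → c = 0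
  S1 : Set E
  S1c : S1.Countable
  S1R : ∀ s ∈ S1, s ∈ R
  S1nil : ∀ s ∈ S1, ∃ n : ℕ, s ^ n = 0
  S2 : Set E
  S2c : S2.Countable
  S2R : ∀ s ∈ S2, s ∈ R
  S2sq : ∀ s ∈ S2, s * s = s
  S2n : ∀ s ∈ S2, 1 - s ∈ S2
  span : ∀ K : Submodule ℚ E, 1 ∈ K → (∀ s ∈ S1, (∀ j : ℕ, 2 ≤ j → s ^ j ∈ K) → s ∈ K) →
    (∀ s ∈ S2, s ∈ K) → K = ⊤

namespace RN

variable {E : Type} [Ring E] [Algebra ℚ E] (D : RN E)

instance : Countable (D.S1 ⊕ D.S2 ⊕ Unit) := by
  have h1 : Countable D.S1 := D.S1c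
  have h2 : Countable D.S2 := D.S2c
  infer_instance

/-- enumeration of the types by primes -/
noncomputable def tau : ℕ → (D.S1 ⊕ D.S2 ⊕ Unit) :=
  (exists_enum (Y := D.S1 ⊕ D.S2 ⊕ Unit)).choose

theorem tau_inf (y : D.S1 ⊕ D.S2 ⊕ Unit) : {p : ℕ | p.Prime ∧ D.tau p = y}.Infinite :=
  (exists_enum (Y := D.S1 ⊕ D.S2 ⊕ Unit)).choose_spec y

/-- local denominators -/
noncomputable def v (p : ℕ) : E :=
  match D.tau p with
  | Sum.inl s => (p : ℚ) • (1 : E) - (s : E)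
  | Sum.inr (Sum.inl e) => (p : ℚ) • (e : E) + (1 - (e : E))
  | Sum.inr (Sum.inr _) => 1

theorem v_mem (p : ℕ) : D.v p ∈ D.R := by
  unfold v
  rcases D.tau p with s | e | _
  · exact D.R.sub_mem (nat_smul_mem p D.R.one_mem) (D.S1R _ s.2)
  · exact D.R.add_mem (nat_smul_mem p (D.S2R _ e.2))
      (D.R.sub_mem D.R.one_mem (D.S2R _ e.2))
  · exact D.R.one_mem

/-- the group -/
def A : AddSubgroup E where
  carrier := {a | ∀ p : ℕ, p.Prime → Loc D.R p (a * D.v p)}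
  add_mem' := by
    intro a b ha hb p hp
    rw [add_mul]
    exact (ha p hp).add hp (hb p hp)
  zero_mem' := by
    intro p hp
    rw [zero_mul]
    exact Loc.of_mem hp D.R.zero_mem
  neg_mem' := by
    intro a ha p hp
    rw [neg_mul]
    exact (ha p hp).neg

theorem mem_A (a : E) : a ∈ D.A ↔ ∀ p : ℕ, p.Prime → Loc D.R p (a * D.v p) := Iff.rfl

theorem R_le_A {a : E} (ha : a ∈ D.R) : a ∈ D.A := by
  intro p hp
  exact Loc.of_mem hp (D.R.mul_mem ha (D.v_mem p))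

theorem mul_mem_A {r a : E} (hr : r ∈ D.R) (ha : a ∈ D.A) : r * a ∈ D.A := by
  intro p hp
  rw [mul_assoc]
  exact (ha p hp).mul_left hr

/-- an element `u` with `u v_p ∈ R` and `p^k u ∈ R` is in `A` -/
theorem u_mem {p : ℕ} (hp : p.Prime) {u : E} (h1 : u * D.v p ∈ D.R) (k : ℕ)
    (h2 : ((p : ℚ) ^ k) • u ∈ D.R) : u ∈ D.A := by
  intro l hl
  by_cases h : l = p
  · subst h
    exact Loc.of_mem hl h1
  · refine ⟨((p ^ k : ℕ) : ℤ), ?_, ?_⟩
    · intro hd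
      have hd' : l ∣ p ^ k := by exact_mod_cast hd
      have := hl.dvd_of_dvd_pow hd'
      exact h ((Nat.prime_dvd_prime_iff_eq hl hp).1 this)
    · have : (((p ^ k : ℕ) : ℤ) : ℚ) = (p : ℚ) ^ k := by push_cast; rfl
      rw [this, ← smul_mul_assoc]
      exact D.R.mul_mem h2 (D.v_mem l)

theorem one_mem_A : (1 : E) ∈ D.A := D.R_le_A D.R.one_mem

theorem cancel {y : D.S1 ⊕ D.S2 ⊕ Unit} {c : E}
    (h : ∀ p : ℕ, p.Prime → D.tau p = y → Loc D.R p ((p : ℚ)⁻¹ • c)) : c = 0 :=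
  D.h2 _ (D.tau_inf y) (fun _ hp => hp.1) c (fun p hp => h p hp.1 hp.2)

theorem pow_mem_A {s : E} (hs : s ∈ D.S1) (j : ℕ) : s ^ j ∈ D.A :=
  D.R_le_A (D.R.pow_mem (D.S1R s hs) j)

theorem kill_S1 (g : D.A →+ D.A) (hg : g ⟨1, D.one_mem_A⟩ = 0) (s : E) (hs : s ∈ D.S1)
    (hpow : ∀ j : ℕ, 2 ≤ j → g ⟨s ^ j, D.pow_mem_A hs j⟩ = 0) :
    g ⟨s, D.R_le_A (D.S1R s hs)⟩ = 0 := by
  set c : E := (g ⟨s, D.R_le_A (D.S1R s hs)⟩ : E) with hc
  obtain ⟨n0, hn0⟩ := D.S1nil s hs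
  obtain ⟨n, hn⟩ : ∃ n : ℕ, s ^ (n + 2) = 0 := ⟨n0, by rw [pow_add, hn0, zero_mul]⟩
  -- main relation
  have key : ∀ p : ℕ, p.Prime → D.tau p = Sum.inl ⟨s, hs⟩ →
      Loc D.R p ((p : ℚ)⁻¹ • c - ((p : ℚ)⁻¹ * (p : ℚ)⁻¹) • (c * s)) := by
    intro p hp hτ
    have hv : D.v p = (p : ℚ) • (1 : E) - s := by unfold v; rw [hτ]
    have hp0 : (p : ℚ) ≠ 0 := by exact_mod_cast hp.ne_zero
    set G : E := ∑ i ∈ Finset.range (n + 2), (p : ℚ) ^ i • s ^ (n + 1 - i) with hG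
    have hGv : G * D.v p = (p : ℚ) ^ (n + 2) • (1 : E) := by
      have hcm : Commute ((p : ℚ) • (1 : E)) s := by
        rw [commute_iff_eq, smul_mul_assoc, mul_smul_comm, one_mul, mul_one]
      have h1 := hcm.geom_sum₂_mul (n + 2)
      rw [hn, sub_zero, smul_pow, one_pow] at h1
      rw [hv, hG, ← h1]
      congr 1
      apply Finset.sum_congr rfl
      intro i _
      rw [smul_pow, one_pow, smul_mul_assoc, one_mul]
      rfl
    set u : E := ((p : ℚ) ^ (n + 2))⁻¹ • G with hu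
    have hpn : (p : ℚ) ^ (n + 2) ≠ 0 := pow_ne_zero _ hp0
    have huv : u * D.v p = 1 := by
      rw [hu, smul_mul_assoc, hGv, smul_smul, inv_mul_cancel₀ hpn, one_smul]
    have hpu : (p : ℚ) ^ (n + 2) • u = G := by
      rw [hu, smul_smul, mul_inv_cancel₀ hpn, one_smul]
    have hGR : G ∈ D.R := by
      rw [hG]
      apply Subring.sum_mem
      intro i _
      rw [← Nat.cast_pow]
      exact nat_smul_mem _ (D.R.pow_mem (D.S1R s hs) _)
    have huA : u ∈ D.A := D.u_mem hp (by rw [huv]; exact D.R.one_mem) (n + 2) (by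
      rw [hpu]; exact hGR)
    -- apply g
    have h1 : (p ^ (n + 2)) • (⟨u, huA⟩ : D.A) =
        ∑ i ∈ Finset.range (n + 2), (p ^ i) • (⟨s ^ (n + 1 - i), D.pow_mem_A hs _⟩ : D.A) := by
      apply Subtype.ext
      rw [AddSubgroup.val_finsetSum]
      change (p ^ (n + 2)) • u = ∑ i ∈ Finset.range (n + 2), (p ^ i) • s ^ (n + 1 - i)
      rw [← Nat.cast_smul_eq_nsmul ℚ, Nat.cast_pow, hpu, hG]
      apply Finset.sum_congr rfl
      intro i _
      rw [← Nat.cast_smul_eq_nsmul ℚ, Nat.cast_pow]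
    have h2 : (p ^ (n + 2)) • g ⟨u, huA⟩ = (p ^ n) • g ⟨s, D.R_le_A (D.S1R s hs)⟩ := by
      rw [← map_nsmul, h1, map_sum, Finset.sum_eq_single n]
      · rw [map_nsmul]
        congr 2
        apply Subtype.ext
        change s ^ (n + 1 - n) = s
        rw [Nat.add_sub_cancel_left, pow_one]
      · intro i hi hin
        rw [map_nsmul]
        rw [Finset.mem_range] at hi
        by_cases h : i = n + 1
        · subst h
          have : (⟨s ^ (n + 1 - (n + 1)), D.pow_mem_A hs _⟩ : D.A) = ⟨1, D.one_mem_A⟩ := by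
            apply Subtype.ext
            change s ^ (n + 1 - (n + 1)) = 1
            rw [Nat.sub_self, pow_zero]
          rw [this, hg, smul_zero]
        · rw [hpow _ (by omega), smul_zero]
      · intro h
        exact absurd (Finset.mem_range.2 (by omega)) h
    have h3 : (p : ℚ) ^ (n + 2) • (g ⟨u, huA⟩ : E) = (p : ℚ) ^ n • c := by
      have := congrArg Subtype.val h2
      change (p ^ (n + 2)) • (g ⟨u, huA⟩ : E) = (p ^ n) • c at this
      rwa [← Nat.cast_smul_eq_nsmul ℚ, ← Nat.cast_smul_eq_nsmul ℚ, Nat.cast_pow, Nat.cast_pow]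
        at this
    have h4 : (g ⟨u, huA⟩ : E) = ((p : ℚ)⁻¹ * (p : ℚ)⁻¹) • c := by
      have h5 := congrArg (fun x => ((p : ℚ) ^ (n + 2))⁻¹ • x) h3
      simp only [smul_smul] at h5
      rw [inv_mul_cancel₀ hpn, one_smul] at h5
      rw [h5]
      congr 1
      field_simp
      ring
    have h5 := (g ⟨u, huA⟩).2 p hp
    rw [hv, h4, smul_mul_assoc, mul_sub, mul_smul_comm, mul_one, smul_sub, smul_smul] at h5
    have e1 : (p : ℚ)⁻¹ * (p : ℚ)⁻¹ * (p : ℚ) = (p : ℚ)⁻¹ := by field_simp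
    rwa [e1] at h5
  have hdown : ∀ k : ℕ, k ≤ n + 2 → c * s ^ (n + 2 - k) = 0 := by
    intro k
    induction k with
    | zero => intro _; rw [Nat.sub_zero, hn, mul_zero]
    | succ k ih =>
      intro hk
      have ih' := ih (by omega)
      apply D.cancel (y := Sum.inl ⟨s, hs⟩)
      intro p hp hτ
      have h := (key p hp hτ).mul_right (D.R.pow_mem (D.S1R s hs) (n + 2 - (k + 1)))
      have e : s * s ^ (n + 2 - (k + 1)) = s ^ (n + 2 - k) := by
        rw [← pow_succ']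
        congr 1
        omega
      rw [sub_mul, smul_mul_assoc, smul_mul_assoc, mul_assoc c s, e, ih', smul_zero, sub_zero] at h
      exact h
  have := hdown (n + 2) le_rfl
  rw [Nat.sub_self, pow_zero, mul_one] at this
  exact Subtype.ext this

theorem kill_S2 (g : D.A →+ D.A) (hg : g ⟨1, D.one_mem_A⟩ = 0) (e : E) (he : e ∈ D.S2) :
    (g ⟨e, D.R_le_A (D.S2R e he)⟩ : E) * (1 - e) = 0 := by
  set c : E := (g ⟨e, D.R_le_A (D.S2R e he)⟩ : E) with hc
  apply D.cancel (y := Sum.inr (Sum.inl ⟨e, he⟩))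
  intro p hp hτ
  have hv : D.v p = (p : ℚ) • e + (1 - e) := by unfold v; rw [hτ]
  have hp0 : (p : ℚ) ≠ 0 := by exact_mod_cast hp.ne_zero
  have hee := D.S2sq e he
  have e1 : e * (1 - e) = 0 := by rw [mul_sub, mul_one, hee, sub_self]
  have e2 : (1 - e) * e = 0 := by rw [sub_mul, one_mul, hee, sub_self]
  have e3 : (1 - e) * (1 - e) = 1 - e := by rw [mul_sub, mul_one, e2, sub_zero]
  have e4 : D.v p * (1 - e) = 1 - e := by
    rw [hv, add_mul, smul_mul_assoc, e1, smul_zero, zero_add, e3]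
  set u : E := (p : ℚ)⁻¹ • e + (1 - e) with hu
  have hpu : (p : ℚ) ^ 1 • u = e + (p : ℚ) • (1 - e) := by
    rw [hu, pow_one, smul_add, smul_smul, mul_inv_cancel₀ hp0, one_smul]
  have huv : u * D.v p = 1 := by
    rw [hv, hu, add_mul, mul_add, mul_add, smul_mul_assoc, smul_mul_assoc, mul_smul_comm,
      mul_smul_comm, hee, e1, e2, e3, smul_smul, inv_mul_cancel₀ hp0, one_smul]
    simp
  have huA : u ∈ D.A := D.u_mem hp (by rw [huv]; exact D.R.one_mem) 1 (by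
    rw [hpu]
    exact D.R.add_mem (D.S2R e he) (nat_smul_mem p (D.R.sub_mem D.R.one_mem (D.S2R e he))))
  have h1 : p • (⟨u, huA⟩ : D.A) = ⟨e, D.R_le_A (D.S2R e he)⟩ + (p • (⟨1, D.one_mem_A⟩ : D.A) -
      p • ⟨e, D.R_le_A (D.S2R e he)⟩) := by
    apply Subtype.ext
    change p • u = e + (p • (1 : E) - p • e)
    rw [pow_one] at hpu
    rw [← Nat.cast_smul_eq_nsmul ℚ, hpu, ← Nat.cast_smul_eq_nsmul ℚ, ← Nat.cast_smul_eq_nsmul ℚ,
      smul_sub]
  have h2 : p • g ⟨u, huA⟩ = g ⟨e, D.R_le_A (D.S2R e he)⟩ - p • g ⟨e, D.R_le_A (D.S2R e he)⟩ := by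
    rw [← map_nsmul, h1, map_add, map_sub, map_nsmul, map_nsmul, hg, smul_zero, zero_sub,
      sub_eq_add_neg]
  have h3 : (p : ℚ) • (g ⟨u, huA⟩ : E) = c - (p : ℚ) • c := by
    have := congrArg Subtype.val h2
    change p • (g ⟨u, huA⟩ : E) = c - p • c at this
    rwa [← Nat.cast_smul_eq_nsmul ℚ, ← Nat.cast_smul_eq_nsmul ℚ] at this
  have h4 : (g ⟨u, huA⟩ : E) = (p : ℚ)⁻¹ • c - c := by
    have := congrArg (fun x => (p : ℚ)⁻¹ • x) h3
    simp only [smul_sub, smul_smul, inv_mul_cancel₀ hp0, one_smul] at this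
    exact this
  have h5 := ((g ⟨u, huA⟩).2 p hp).mul_right (D.R.sub_mem D.R.one_mem (D.S2R e he))
  rw [mul_assoc, e4, h4, sub_mul, smul_mul_assoc] at h5
  have h6 := ((g ⟨e, D.R_le_A (D.S2R e he)⟩).2 p hp).mul_right
    (D.R.sub_mem D.R.one_mem (D.S2R e he))
  rw [mul_assoc, e4] at h6
  have h7 := h5.add hp h6
  rwa [sub_add_cancel] at h7

theorem kill_S2' (g : D.A →+ D.A) (hg : g ⟨1, D.one_mem_A⟩ = 0) (e : E) (he : e ∈ D.S2) :
    g ⟨e, D.R_le_A (D.S2R e he)⟩ = 0 := by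
  have h1 := D.kill_S2 g hg e he
  have h2 := D.kill_S2 g hg (1 - e) (D.S2n e he)
  have h3 : g ⟨1 - e, D.R_le_A (D.S2R _ (D.S2n e he))⟩ = - g ⟨e, D.R_le_A (D.S2R e he)⟩ := by
    have : (⟨1 - e, D.R_le_A (D.S2R _ (D.S2n e he))⟩ : D.A) = ⟨1, D.one_mem_A⟩ -
      ⟨e, D.R_le_A (D.S2R e he)⟩ := rfl
    rw [this, map_sub, hg, zero_sub]
  rw [h3, sub_sub_cancel] at h2
  apply Subtype.ext
  change (g ⟨e, D.R_le_A (D.S2R e he)⟩ : E) = 0
  have h4 : ((-g ⟨e, D.R_le_A (D.S2R e he)⟩ : D.A) : E) = - (g ⟨e, D.R_le_A (D.S2R e he)⟩ : E) := rfl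
  rw [h4, neg_mul, neg_eq_zero] at h2
  rw [mul_sub, mul_one, h2, sub_zero] at h1
  exact h1

theorem exists_mult (a : E) : ∃ N : ℕ, N ≠ 0 ∧ (N : ℚ) • a ∈ D.A := by
  obtain ⟨N, hN, h⟩ := D.h1 a
  exact ⟨N, hN, D.R_le_A h⟩

/-- an endomorphism killing 1 is zero -/
theorem kill (g : D.A →+ D.A) (hg : g ⟨1, D.one_mem_A⟩ = 0) : g = 0 := by
  let K : Submodule ℚ E :=
    { carrier := {e | ∃ N : ℕ, N ≠ 0 ∧ ∃ h : (N : ℚ) • e ∈ D.A, g ⟨_, h⟩ = 0}
      add_mem' := by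
        rintro a b ⟨N, hN, h, hg⟩ ⟨M, hM, h', hg'⟩
        have e1 : ((N * M : ℕ) : ℚ) • (a + b) = M • ((N : ℚ) • a) + N • ((M : ℚ) • b) := by
          rw [← Nat.cast_smul_eq_nsmul ℚ, ← Nat.cast_smul_eq_nsmul ℚ]
          push_cast
          module
        have h3 : ((N * M : ℕ) : ℚ) • (a + b) ∈ D.A := by
          rw [e1]
          exact D.A.add_mem (D.A.nsmul_mem h M) (D.A.nsmul_mem h' N)
        refine ⟨N * M, mul_ne_zero hN hM, h3, ?_⟩
        have : (⟨_, h3⟩ : D.A) = M • ⟨_, h⟩ + N • ⟨_, h'⟩ := Subtype.ext e1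
        rw [this, map_add, map_nsmul, map_nsmul, hg, hg']
        simp
      zero_mem' := by
        refine ⟨1, one_ne_zero, by rw [smul_zero]; exact D.A.zero_mem, ?_⟩
        have : (⟨((1 : ℕ) : ℚ) • (0 : E), by rw [smul_zero]; exact D.A.zero_mem⟩ : D.A) = 0 :=
          Subtype.ext (smul_zero _)
        rw [this, map_zero]
      smul_mem' := by
        rintro c a ⟨N, hN, h, hg⟩
        have hd : (c.den : ℚ) ≠ 0 := by exact_mod_cast c.den_ne_zero
        have e1 : ((c.den * N : ℕ) : ℚ) • (c • a) = c.num • ((N : ℚ) • a) := by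
          rw [← Int.cast_smul_eq_zsmul ℚ, smul_smul, smul_smul]
          congr 1
          have := Rat.mul_den_eq_num c
          push_cast
          linear_combination (N : ℚ) * this
        have h3 : ((c.den * N : ℕ) : ℚ) • (c • a) ∈ D.A := by
          rw [e1]
          exact D.A.zsmul_mem h _
        refine ⟨c.den * N, mul_ne_zero c.den_ne_zero hN, h3, ?_⟩
        have : (⟨_, h3⟩ : D.A) = c.num • ⟨_, h⟩ := Subtype.ext e1
        rw [this, map_zsmul, hg, smul_zero] }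
  have hmem : ∀ (e : E) (h : e ∈ D.A), g ⟨e, h⟩ = 0 → e ∈ K := by
    intro e h hg
    refine ⟨1, one_ne_zero, by rw [Nat.cast_one, one_smul]; exact h, ?_⟩
    have : (⟨((1 : ℕ) : ℚ) • e, by rw [Nat.cast_one, one_smul]; exact h⟩ : D.A) = ⟨e, h⟩ :=
      Subtype.ext (show ((1 : ℕ) : ℚ) • e = e by rw [Nat.cast_one, one_smul])
    rw [this, hg]
  have hmem' : ∀ (e : E) (h : e ∈ D.A), e ∈ K → g ⟨e, h⟩ = 0 := by
    rintro a ha ⟨N, hN, h, hgN⟩
    have h2 : (⟨_, h⟩ : D.A) = N • ⟨a, ha⟩ := by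
      apply Subtype.ext
      change _ = N • a
      rw [← Nat.cast_smul_eq_nsmul ℚ]
    rw [h2, map_nsmul] at hgN
    have h3 : N • (g ⟨a, ha⟩ : E) = 0 := congrArg Subtype.val hgN
    rw [← Nat.cast_smul_eq_nsmul ℚ, smul_eq_zero] at h3
    rcases h3 with h3 | h3
    · exact absurd (by exact_mod_cast h3) hN
    · exact Subtype.ext h3
  have hK : K = ⊤ := D.span K (hmem _ _ hg)
    (fun s hs hj => hmem _ _ (D.kill_S1 g hg s hs (fun j h2 => hmem' _ _ (hj j h2))))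
    (fun s hs => hmem _ _ (D.kill_S2' g hg s hs))
  ext ⟨a, ha⟩
  have h1 : a ∈ K := by rw [hK]; trivial
  obtain ⟨N, hN, h, hgN⟩ := h1
  have h2 : (⟨_, h⟩ : D.A) = N • ⟨a, ha⟩ := by
    apply Subtype.ext
    change _ = N • a
    rw [← Nat.cast_smul_eq_nsmul ℚ]
  rw [h2, map_nsmul] at hgN
  have h3 : N • (g ⟨a, ha⟩ : E) = 0 := congrArg Subtype.val hgN
  rw [← Nat.cast_smul_eq_nsmul ℚ, smul_eq_zero] at h3
  rcases h3 with h3 | h3
  · exact absurd (by exact_mod_cast h3) hN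
  · exact h3

/-- every endomorphism is a left multiplication -/
theorem endo (f : D.A →+ D.A) (a : E) (ha : a ∈ D.A) :
    (f ⟨a, ha⟩ : E) = (f ⟨1, D.one_mem_A⟩ : E) * a := by
  set b : E := (f ⟨1, D.one_mem_A⟩ : E) with hb
  obtain ⟨N, hN, hNb⟩ := D.h1 b
  let L : D.A →+ D.A :=
    { toFun := fun x => ⟨((N : ℚ) • b) * x, D.mul_mem_A hNb x.2⟩
      map_zero' := Subtype.ext (mul_zero _)
      map_add' := fun x y => Subtype.ext (mul_add _ _ _) }
  have hg : (N • f - L) ⟨1, D.one_mem_A⟩ = 0 := by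
    apply Subtype.ext
    change N • b - ((N : ℚ) • b) * 1 = 0
    rw [mul_one, Nat.cast_smul_eq_nsmul, sub_self]
  have h0 := D.kill _ hg
  have h1 := congrArg Subtype.val (DFunLike.congr_fun h0 ⟨a, ha⟩)
  change N • (f ⟨a, ha⟩ : E) - ((N : ℚ) • b) * a = 0 at h1
  rw [← Nat.cast_smul_eq_nsmul ℚ, smul_mul_assoc, ← smul_sub, smul_eq_zero] at h1
  rcases h1 with h1 | h1
  · exact absurd (by exact_mod_cast h1) hN
  · exact sub_eq_zero.1 h1

/-- left multiplication by elements of `R` -/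
def lm (r : E) (hr : r ∈ D.R) : AddMonoid.End D.A :=
  { toFun := fun x => ⟨r * x, D.mul_mem_A hr x.2⟩
    map_zero' := Subtype.ext (mul_zero _)
    map_add' := fun x y => Subtype.ext (mul_add _ _ _) }

theorem lm_apply (r : E) (hr : r ∈ D.R) (x : D.A) : (D.lm r hr x : E) = r * x := rfl

/-- value at one -/
def ev (f : AddMonoid.End D.A) : E := (f ⟨1, D.one_mem_A⟩ : E)

theorem ev_lm (r : E) (hr : r ∈ D.R) : D.ev (D.lm r hr) = r := mul_one r

theorem apply_eq (f : AddMonoid.End D.A) (x : D.A) : (f x : E) = D.ev f * x :=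
  D.endo f x.1 x.2

theorem ev_mul (f g : AddMonoid.End D.A) : D.ev (f * g) = D.ev f * D.ev g :=
  D.apply_eq f (g ⟨1, D.one_mem_A⟩)

theorem ev_add (f g : AddMonoid.End D.A) : D.ev (f + g) = D.ev f + D.ev g := rfl

theorem ev_one : D.ev 1 = 1 := rfl

theorem ev_inj {f g : AddMonoid.End D.A} (h : D.ev f = D.ev g) : f = g := by
  ext x
  rw [D.apply_eq, D.apply_eq, h]

theorem ev_zero : D.ev 0 = 0 := rfl

/-- central essentiality is inherited by the endomorphism ring -/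
theorem centEss (h : ∀ a : E, a ≠ 0 → ∃ c ∈ Subring.center E, a * c ∈ Subring.center E ∧ a * c ≠ 0) :
    CentEss (AddMonoid.End D.A) := by
  intro f hf
  have hb : D.ev f ≠ 0 := fun h0 => hf (D.ev_inj (by rw [h0, ev_zero]))
  obtain ⟨c, hc, hbc, hbc0⟩ := h _ hb
  obtain ⟨N, hN, hNc⟩ := D.h1 c
  have hNq : (N : ℚ) ≠ 0 := by exact_mod_cast hN
  have hcc : (N : ℚ) • c ∈ Subring.center E := by
    rw [Subring.mem_center_iff] at hc ⊢
    intro g
    rw [mul_smul_comm, smul_mul_assoc, hc g]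
  have hcent : ∀ k : AddMonoid.End D.A, D.ev k ∈ Subring.center E →
      k ∈ Subring.center (AddMonoid.End D.A) := by
    intro k hk
    rw [Subring.mem_center_iff] at hk ⊢
    intro g
    apply D.ev_inj
    rw [ev_mul, ev_mul, hk]
  refine ⟨D.lm _ hNc, hcent _ (by rw [ev_lm]; exact hcc), f * D.lm _ hNc, hcent _ ?_, ?_, ?_, rfl⟩
  · rw [ev_mul, ev_lm, mul_smul_comm]
    rw [Subring.mem_center_iff] at hbc ⊢
    intro g
    rw [mul_smul_comm, smul_mul_assoc, hbc g]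
  · intro h0
    have := D.ev_lm _ hNc
    rw [h0, ev_zero] at this
    apply hbc0
    have hc0 : c = 0 := by
      rcases smul_eq_zero.1 this.symm with h | h
      · exact absurd h hNq
      · exact h
    rw [hc0, mul_zero]
  · intro h0
    have := D.ev_mul f (D.lm _ hNc)
    rw [h0, ev_zero, ev_lm, mul_smul_comm] at this
    rcases smul_eq_zero.1 this.symm with h | h
    · exact hNq h
    · exact hbc0 h

theorem noncomm {r s : E} (hr : r ∈ D.R) (hs : s ∈ D.R) (h : r * s ≠ s * r) :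
    ∃ f g : AddMonoid.End D.A, f * g ≠ g * f := by
  refine ⟨D.lm r hr, D.lm s hs, fun h0 => h ?_⟩
  have := congrArg D.ev h0
  rwa [ev_mul, ev_mul, ev_lm, ev_lm] at this

theorem tfree (x : D.A) (n : ℕ) (hn : n ≠ 0) (h : n • x = 0) : x = 0 := by
  have h1 : n • (x : E) = 0 := congrArg Subtype.val h
  rw [← Nat.cast_smul_eq_nsmul ℚ, smul_eq_zero] at h1
  rcases h1 with h1 | h1
  · exact absurd (by exact_mod_cast h1) hn
  · exact Subtype.ext h1

end RN

end Pool.Agent.X280.CE
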