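import Mathlib
import Pool.Agent.X280.CE.RealN
import Pool.Agent.X280.CE.E6

set_option autoImplicit false
set_option linter.unusedSectionVars false

namespace Pool.Agent.X280.CE.NPI

/-- The monoid: `el k j w` stands for `h^(j+1) ⊗ w` at level `k` (it is zero-like as soon as a
product has weight at least `k`). -/
inductive T : Type
  | one : T
  | zero : T
  | el : ℕ → ℕ → List ℕ → T
deriving DecidableEq

namespace T

def mul' : T → T → T
  | one, t => t
  | t, one => t
  | zero, _ => zero
  | _, zero => zero
  | el k j w, el k' j' w' => if k = k' ∧ j + j' + 2 < k then el k (j + j' + 1) (w ++ w') else zero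

instance : Mul T := ⟨mul'⟩
instance : One T := ⟨one⟩

theorem one_mul' (t : T) : (1 : T) * t = t := by cases t <;> rfl
theorem mul_one' (t : T) : t * (1 : T) = t := by cases t <;> rfl
theorem zero_mul' (t : T) : (zero : T) * t = zero := by cases t <;> rfl
theorem mul_zero' (t : T) : t * (zero : T) = zero := by cases t <;> rfl
theorem el_mul (k j : ℕ) (w : List ℕ) (k' j' : ℕ) (w' : List ℕ) : el k j w * el k' j' w' =
    if k = k' ∧ j + j' + 2 < k then el k (j + j' + 1) (w ++ w') else zero := rfl

instance : Monoid T where
  one_mul := one_mul'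
  mul_one := mul_one'
  mul_assoc a b c := by
    cases a with
    | one => rw [show (T.one : T) = 1 from rfl, one_mul', one_mul']
    | zero => rw [zero_mul', zero_mul', zero_mul']
    | el k j w =>
      cases b with
      | one => rw [show (T.one : T) = 1 from rfl, mul_one', one_mul']
      | zero => rw [mul_zero', zero_mul', mul_zero']
      | el k' j' w' =>
        cases c with
        | one => rw [show (T.one : T) = 1 from rfl, mul_one', mul_one']
        | zero => rw [mul_zero', mul_zero', mul_zero']
        | el k'' j'' w'' =>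
          rw [el_mul, el_mul]
          by_cases h1 : k = k'
          · subst h1
            by_cases h2 : k = k''
            · subst h2
              by_cases h3 : j + j' + 2 < k
              · by_cases h4 : j' + j'' + 2 < k
                · rw [if_pos ⟨rfl, h3⟩, if_pos ⟨rfl, h4⟩, el_mul, el_mul]
                  by_cases h5 : j + j' + j'' + 3 < k
                  · rw [if_pos ⟨rfl, by omega⟩, if_pos ⟨rfl, by omega⟩, List.append_assoc]
                    congr 1
                    omega
                  · rw [if_neg (fun h => h5 (by omega)), if_neg (fun h => h5 (by omega))]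
                · rw [if_pos ⟨rfl, h3⟩, if_neg (fun h => h4 h.2), el_mul, mul_zero',
                    if_neg (fun h => h4 (by omega))]
              · rw [if_neg (fun h => h3 h.2), zero_mul']
                by_cases h4 : j' + j'' + 2 < k
                · rw [if_pos ⟨rfl, h4⟩, el_mul, if_neg (fun h => h3 (by omega))]
                · rw [if_neg (fun h => h4 h.2), mul_zero']
            · rw [if_neg (fun h : k = k'' ∧ _ => h2 h.1), mul_zero']
              by_cases h3 : j + j' + 2 < k
              · rw [if_pos ⟨rfl, h3⟩, el_mul, if_neg (fun h => h2 h.1)]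
              · rw [if_neg (fun h => h3 h.2), zero_mul']
          · rw [if_neg (fun h => h1 h.1), zero_mul']
            by_cases h2 : k' = k'' ∧ j' + j'' + 2 < k'
            · rw [if_pos h2, el_mul, if_neg (fun h => h1 h.1)]
            · rw [if_neg h2, mul_zero']

/-- encoding, for countability -/
def enc : T → ℕ ⊕ (ℕ × ℕ × List ℕ)
  | one => Sum.inl 0
  | zero => Sum.inl 1
  | el k j w => Sum.inr (k, j, w)

theorem enc_inj : Function.Injective enc := by
  intro a b h
  cases a <;> cases b <;> simp_all [enc]

instance : Countable T := enc_inj.countable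

/-- top elements annihilate everything -/
theorem top_left {k j : ℕ} (h : k ≤ j + 2) (w : List ℕ) (t : T) (ht : t ≠ 1) :
    el k j w * t = zero := by
  cases t with
  | one => exact absurd rfl ht
  | zero => exact mul_zero' _
  | el k' j' w' => rw [el_mul, if_neg (by omega)]

theorem top_right {k j : ℕ} (h : k ≤ j + 2) (w : List ℕ) (t : T) (ht : t ≠ 1) :
    t * el k j w = zero := by
  cases t with
  | one => exact absurd rfl ht
  | zero => exact zero_mul' _
  | el k' j' w' => rw [el_mul, if_neg (by omega)]

/-- central elements of `T` -/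
def Cen (t : T) : Prop := ∀ s : T, Commute t s

theorem cen_one : Cen 1 := fun s => Commute.one_left s
theorem cen_zero : Cen zero := fun s => by rw [commute_iff_eq, zero_mul', mul_zero']
theorem cen_top {k j : ℕ} (h : k ≤ j + 2) (w : List ℕ) : Cen (el k j w) := by
  intro s
  by_cases hs : s = 1
  · subst hs; exact Commute.one_right _
  · rw [commute_iff_eq, top_left h w s hs, top_right h w s hs]
theorem cen_nil (k j : ℕ) : Cen (el k j []) := by
  intro s
  rw [commute_iff_eq]
  cases s with
  | one => rw [show (T.one : T) = 1 from rfl, one_mul', mul_one']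
  | zero => rw [mul_zero', zero_mul']
  | el k' j' w' =>
    rw [el_mul, el_mul]
    by_cases h : k = k' ∧ j + j' + 2 < k
    · obtain ⟨rfl, h2⟩ := h
      rw [if_pos ⟨rfl, h2⟩, if_pos ⟨rfl, by omega⟩, List.nil_append, List.append_nil]
      congr 1
      omega
    · rw [if_neg h, if_neg]
      rintro ⟨rfl, h2⟩
      exact h ⟨rfl, by omega⟩

/-- powers -/
theorem pow_el (k j : ℕ) (w : List ℕ) (n : ℕ) :
    (el k j w) ^ (n + 2) = zero ∨ ∃ j' w', j < j' ∧ j' + 1 < k ∧ (el k j w) ^ (n + 2) = el k j' w' := by
  induction n with
  | zero =>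
    rw [zero_add, sq, el_mul]
    by_cases h : k = k ∧ j + j + 2 < k
    · rw [if_pos h]
      exact Or.inr ⟨_, _, by omega, by omega, rfl⟩
    · rw [if_neg h]
      exact Or.inl rfl
  | succ n ih =>
    rw [show n + 1 + 2 = (n + 2) + 1 by ring, pow_succ]
    rcases ih with h | ⟨j', w', h1, h2, h3⟩
    · rw [h, zero_mul']
      exact Or.inl rfl
    · rw [h3, el_mul]
      by_cases h : k = k ∧ j' + j + 2 < k
      · rw [if_pos h]
        exact Or.inr ⟨_, _, by omega, by omega, rfl⟩
      · rw [if_neg h]
        exact Or.inl rfl

theorem pow_el_zero (k j : ℕ) (w : List ℕ) (n : ℕ) (hn : k ≤ n) : (el k j w) ^ (n + 2) = zero := by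
  have key : ∀ n : ℕ, (el k j w) ^ (n + 2) = zero ∨ ∃ j' w', n ≤ j' ∧ j' + 1 < k ∧
      (el k j w) ^ (n + 2) = el k j' w' := by
    intro n
    induction n with
    | zero =>
      rcases pow_el k j w 0 with h | ⟨j', w', h1, h2, h3⟩
      · exact Or.inl h
      · exact Or.inr ⟨j', w', by omega, h2, h3⟩
    | succ n ih =>
      rw [show n + 1 + 2 = (n + 2) + 1 by ring, pow_succ]
      rcases ih with h | ⟨j', w', h1, h2, h3⟩
      · rw [h, zero_mul']
        exact Or.inl rfl
      · rw [h3, el_mul]
        by_cases h : k = k ∧ j' + j + 2 < k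
        · rw [if_pos h]
          exact Or.inr ⟨_, _, by omega, by omega, rfl⟩
        · rw [if_neg h]
          exact Or.inl rfl
  rcases key n with h | ⟨j', w', h1, h2, -⟩
  · exact h
  · omega

end T

/-- the algebra -/
abbrev EE := MonoidAlgebra ℚ T

/-- basis elements -/
noncomputable def b (t : T) : EE := MonoidAlgebra.single t 1

theorem b_mul (s t : T) : b s * b t = b (s * t) := by
  rw [b, b, MonoidAlgebra.single_mul_single, one_mul, b]

theorem b_one : b 1 = 1 := rfl

theorem b_pow (s : T) (n : ℕ) : b s ^ n = b (s ^ n) := by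
  rw [b, MonoidAlgebra.single_pow, one_pow, b]

theorem single_eq (t : T) (c : ℚ) : (MonoidAlgebra.single t c : EE) = c • b t := by
  rw [b, MonoidAlgebra.smul_single, smul_eq_mul, mul_one]

theorem eq_sum (f : EE) : f = ∑ t ∈ f.coeff.support, f.coeff t • b t := by
  conv_lhs => rw [← MonoidAlgebra.sum_coeff_single f]
  rw [Finsupp.sum]
  exact Finset.sum_congr rfl fun t _ => single_eq t _

theorem center_b {t : T} (ht : T.Cen t) : b t ∈ Subring.center EE := by
  rw [Subring.mem_center_iff]
  intro g
  exact (MonoidAlgebra.single_commute ht (fun r => Commute.one_left r) g).symm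

theorem center_smul {x : EE} (hx : x ∈ Subring.center EE) (c : ℚ) : c • x ∈ Subring.center EE := by
  rw [Subring.mem_center_iff] at hx ⊢
  intro g
  rw [mul_smul_comm, smul_mul_assoc, hx g]

/-- nilpotent generators -/
theorem nilp (t : T) (n : ℕ) : (b t - b T.zero) ^ (n + 1) = b (t ^ (n + 1)) - b T.zero := by
  induction n with
  | zero => rw [zero_add, pow_one, pow_one]
  | succ n ih =>
    rw [pow_succ, ih, mul_sub, sub_mul, sub_mul, b_mul, b_mul, b_mul, b_mul, T.zero_mul',
      T.mul_zero', T.zero_mul', sub_self, sub_zero, ← pow_succ]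

/-- integral elements -/
noncomputable def RR : Subring EE :=
  (MonoidAlgebra.mapRingHom T (Int.castRingHom ℚ)).range

theorem b_mem (t : T) : b t ∈ RR :=
  ⟨MonoidAlgebra.single t 1, by rw [MonoidAlgebra.mapRingHom_single, map_one]; rfl⟩

theorem coeff_int {f : EE} (hf : f ∈ RR) (t : T) : ∃ n : ℤ, f.coeff t = n := by
  obtain ⟨g, rfl⟩ := hf
  exact ⟨g.coeff t, by rw [MonoidAlgebra.coeff_mapRingHom]; rfl⟩

/-- realisation data -/
noncomputable def data : RN EE where
  R := RR
  h1 f := by
    have key : ∀ s : Finset T, ∃ N : ℕ, N ≠ 0 ∧ (N : ℚ) • (∑ t ∈ s, f.coeff t • b t) ∈ RR := by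
      intro s
      induction s using Finset.induction_on with
      | empty => exact ⟨1, one_ne_zero, by rw [Finset.sum_empty, smul_zero]; exact RR.zero_mem⟩
      | insert a s ha ih =>
        obtain ⟨N, hN, h⟩ := ih
        refine ⟨(f.coeff a).den * N, mul_ne_zero (f.coeff a).den_ne_zero hN, ?_⟩
        rw [Finset.sum_insert ha, smul_add]
        apply RR.add_mem
        · rw [smul_smul]
          have h2 : (((f.coeff a).den * N : ℕ) : ℚ) * f.coeff a = ((N * (f.coeff a).num : ℤ) : ℚ) := by
            have := Rat.mul_den_eq_num (f.coeff a)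
            push_cast
            linear_combination (N : ℚ) * this
          rw [h2]
          exact int_smul_mem _ (b_mem a)
        · rw [Nat.cast_mul, mul_smul]
          exact nat_smul_mem _ h
    obtain ⟨N, hN, h⟩ := key f.coeff.support
    rw [← eq_sum] at h
    exact ⟨N, hN, h⟩
  h2 P hP hp c h := by
    rw [← MonoidAlgebra.coeff_eq_zero]
    ext t
    apply E6.rat_zero P hP hp
    intro p hpP
    obtain ⟨m, hm, hm2⟩ := h p hpP
    obtain ⟨n, hn⟩ := coeff_int hm2 t
    exact ⟨m, hm, n, hn⟩
  S1 := Set.range (fun q : ℕ × ℕ × List ℕ => b (T.el q.1 q.2.1 q.2.2) - b T.zero)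
  S1c := Set.countable_range _
  S1R := by
    rintro _ ⟨q, rfl⟩
    exact RR.sub_mem (b_mem _) (b_mem _)
  S1nil := by
    rintro _ ⟨⟨k, j, w⟩, rfl⟩
    refine ⟨k + 2, ?_⟩
    change (b (T.el k j w) - b T.zero) ^ (k + 1 + 1) = 0
    rw [nilp, T.pow_el_zero k j w k le_rfl, sub_self]
  S2 := {b T.zero, 1 - b T.zero}
  S2c := (Set.toFinite _).countable
  S2R := by
    rintro s (rfl | rfl)
    · exact b_mem _
    · exact RR.sub_mem RR.one_mem (b_mem _)
  S2sq := by
    rintro s (rfl | rfl)
    · rw [b_mul, T.zero_mul']
    · rw [mul_sub, mul_one, sub_mul, one_mul, b_mul, T.zero_mul', sub_self, sub_zero]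
  S2n := by
    rintro s (rfl | rfl)
    · exact Or.inr rfl
    · exact Or.inl (by rw [sub_sub_cancel])
  span K h1 hS1 hS2 := by
    have hz : b T.zero ∈ K := hS2 _ (Or.inl rfl)
    have key : ∀ (n k j : ℕ) (w : List ℕ), k ≤ j + n → b (T.el k j w) ∈ K := by
      intro n
      induction n with
      | zero =>
        intro k j w hk
        have h2 : b (T.el k j w) - b T.zero ∈ K := by
          apply hS1 _ ⟨(k, j, w), rfl⟩
          intro i hi
          obtain ⟨m, rfl⟩ := Nat.exists_eq_add_of_le hi
          change (b (T.el k j w) - b T.zero) ^ (2 + m) ∈ K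
          rw [show 2 + m = (m + 1) + 1 by ring, nilp]
          rcases T.pow_el k j w m with h | ⟨j', w', h1, h2, h3⟩
          · rw [show m + 1 + 1 = m + 2 by ring, h, sub_self]
            exact K.zero_mem
          · omega
        have h3 := K.add_mem h2 hz
        rwa [sub_add_cancel] at h3
      | succ n ih =>
        intro k j w hk
        have h2 : b (T.el k j w) - b T.zero ∈ K := by
          apply hS1 _ ⟨(k, j, w), rfl⟩
          intro i hi
          obtain ⟨m, rfl⟩ := Nat.exists_eq_add_of_le hi
          change (b (T.el k j w) - b T.zero) ^ (2 + m) ∈ K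
          rw [show 2 + m = (m + 1) + 1 by ring, nilp]
          rcases T.pow_el k j w m with h | ⟨j', w', h1, h2, h3⟩
          · rw [show m + 1 + 1 = m + 2 by ring, h, sub_self]
            exact K.zero_mem
          · rw [show m + 1 + 1 = m + 2 by ring, h3]
            exact K.sub_mem (ih k j' w' (by omega)) hz
        have h3 := K.add_mem h2 hz
        rwa [sub_add_cancel] at h3
    rw [eq_top_iff]
    intro f _
    rw [eq_sum f]
    apply Submodule.sum_mem
    intro t _
    apply K.smul_mem
    cases t with
    | one => exact h1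
    | zero => exact hz
    | el k j w => exact key k k j w (by omega)

/-- augmentation -/
noncomputable def aug (f : EE) : ℚ := ∑ t ∈ f.coeff.support, f.coeff t

theorem mul_zero_b (f : EE) : f * b T.zero = aug f • b T.zero := by
  conv_lhs => rw [eq_sum f]
  rw [Finset.sum_mul, aug, Finset.sum_smul]
  apply Finset.sum_congr rfl
  intro t _
  rw [smul_mul_assoc, b_mul, T.mul_zero']

theorem coeff_b (s t : T) : (b s).coeff t = if s = t then 1 else 0 := by
  rw [b, MonoidAlgebra.coeff_single, Finsupp.single_apply]

theorem coeff_smul_b (c : ℚ) (s t : T) : (c • b s).coeff t = if s = t then c else 0 := by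
  rw [MonoidAlgebra.coeff_smul, Finsupp.smul_apply, coeff_b]
  split_ifs <;> simp

/-- strong central essentiality -/
theorem strong (f : EE) (hf : f ≠ 0) :
    ∃ c ∈ Subring.center EE, f * c ∈ Subring.center EE ∧ f * c ≠ 0 := by
  by_cases haug : aug f ≠ 0
  · refine ⟨b T.zero, center_b T.cen_zero, ?_, ?_⟩
    · rw [mul_zero_b]; exact center_smul (center_b T.cen_zero) _
    · rw [mul_zero_b]
      intro h
      have := congrArg (fun g : EE => g.coeff T.zero) h
      change (aug f • b T.zero).coeff T.zero = 0 at this
      rw [coeff_smul_b, if_pos rfl] at this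
      exact haug this
  push Not at haug
  have hfz : f * b T.zero = 0 := by rw [mul_zero_b, haug, zero_smul]
  by_cases h1 : f.coeff T.one ≠ 0
  · -- multiply by a top element
    have hcen : b (T.el 1 0 []) - b T.zero ∈ Subring.center EE :=
      Subring.sub_mem _ (center_b (T.cen_nil _ _)) (center_b T.cen_zero)
    have hprod : f * (b (T.el 1 0 []) - b T.zero) = f * b (T.el 1 0 []) := by
      rw [mul_sub, hfz, sub_zero]
    have hsum : f * b (T.el 1 0 []) = ∑ t ∈ f.coeff.support, f.coeff t • b (t * T.el 1 0 []) := by
      conv_lhs => rw [eq_sum f]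
      rw [Finset.sum_mul]
      apply Finset.sum_congr rfl
      intro t _
      rw [smul_mul_assoc, b_mul]
    refine ⟨_, hcen, ?_, ?_⟩
    · rw [hprod, hsum]
      apply Subring.sum_mem
      intro t _
      apply center_smul
      apply center_b
      by_cases ht : t = 1
      · rw [ht, one_mul]; exact T.cen_nil _ _
      · rw [T.top_right (by omega) _ _ ht]; exact T.cen_zero
    · rw [hprod]
      intro h
      have h2 := congrArg (fun g : EE => g.coeff (T.el 1 0 [])) h
      change (f * b (T.el 1 0 [])).coeff (T.el 1 0 []) = 0 at h2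
      rw [b, MonoidAlgebra.coeff_mul_single_eq_coeff_mul (m₂ := T.one)] at h2
      · rw [mul_one] at h2
        exact h1 h2
      · intro t _
        constructor
        · intro h3
          by_contra ht
          rw [T.top_right (by omega) _ _ ht] at h3
          cases h3
        · rintro rfl
          rfl
  push Not at h1
  by_cases htop : ∀ k j w, f.coeff (T.el k j w) ≠ 0 → k ≤ j + 2
  · refine ⟨1, Subring.one_mem _, ?_, by rwa [mul_one]⟩
    rw [mul_one, eq_sum f]
    apply Subring.sum_mem
    intro t ht
    apply center_smul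
    apply center_b
    cases t with
    | one => exact T.cen_one
    | zero => exact T.cen_zero
    | el k j w => exact T.cen_top (htop k j w (Finsupp.mem_support_iff.1 ht)) w
  push Not at htop
  obtain ⟨k, j1, w1, hne1, hlt1⟩ := htop
  classical
  have hex : ∃ j, ∃ w, f.coeff (T.el k j w) ≠ 0 := ⟨j1, w1, hne1⟩
  set j0 := Nat.find hex with hj0
  obtain ⟨w0, hw0⟩ := Nat.find_spec hex
  rw [← hj0] at hw0
  have hmin : ∀ j w, f.coeff (T.el k j w) ≠ 0 → j0 ≤ j := fun j w h => Nat.find_min' hex ⟨w, h⟩
  have hle : j0 ≤ j1 := hmin j1 w1 hne1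
  -- multiply by `el k (k - 3 - j0) []`
  set y : T := T.el k (k - 3 - j0) [] with hy
  have hsum : f * b y = ∑ t ∈ f.coeff.support, f.coeff t • b (t * y) := by
    conv_lhs => rw [eq_sum f]
    rw [Finset.sum_mul]
    apply Finset.sum_congr rfl
    intro t _
    rw [smul_mul_assoc, b_mul]
  have hprod : f * (b y - b T.zero) = f * b y := by
    rw [mul_sub, hfz, sub_zero]
  refine ⟨b y - b T.zero, Subring.sub_mem _ (center_b (T.cen_nil _ _)) (center_b T.cen_zero), ?_, ?_⟩
  · rw [hprod, hsum]
    apply Subring.sum_mem
    intro t ht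
    apply center_smul
    apply center_b
    rw [Finsupp.mem_support_iff] at ht
    cases t with
    | one => exact absurd h1 ht
    | zero => rw [T.zero_mul']; exact T.cen_zero
    | el k' j' w' =>
      rw [hy, T.el_mul]
      by_cases h : k' = k ∧ j' + (k - 3 - j0) + 2 < k'
      · obtain ⟨rfl, h2⟩ := h
        rw [if_pos ⟨rfl, h2⟩]
        apply T.cen_top
        have := hmin j' w' ht
        omega
      · rw [if_neg h]
        exact T.cen_zero
  · rw [hprod]
    intro h
    have h2 := congrArg (fun g : EE => g.coeff (T.el k (k - 2) w0)) h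
    change (f * b y).coeff (T.el k (k - 2) w0) = 0 at h2
    rw [b, MonoidAlgebra.coeff_mul_single_eq_coeff_mul (m₂ := T.el k j0 w0)] at h2
    · rw [mul_one] at h2
      exact hw0 h2
    · intro t ht
      rw [Finsupp.mem_support_iff] at ht
      constructor
      · intro h3
        cases t with
        | one => exact absurd h1 ht
        | zero =>
          rw [T.zero_mul'] at h3
          cases h3
        | el k' j' w' =>
          rw [hy, T.el_mul] at h3
          by_cases h : k' = k ∧ j' + (k - 3 - j0) + 2 < k'
          · rw [if_pos h, List.append_nil] at h3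
            obtain ⟨e1, e2⟩ := h
            injection h3 with f1 f2 f3
            subst f1
            subst f3
            congr 1
            omega
          · rw [if_neg h] at h3
            cases h3
      · rintro rfl
        rw [hy, T.el_mul, if_pos ⟨rfl, by omega⟩, List.append_nil]
        congr 1
        omega

end Pool.Agent.X280.CE.NPI
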