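import Mathlib
import Pool.Agent.X280.CE.E6

set_option autoImplicit false
set_option linter.unusedSectionVars false

namespace Pool.Agent.X280.CE.E6

theorem den_mem (c : ℚ) (N : ℕ) (h : c.den ∣ N) : ∃ n : ℤ, (N : ℚ) * c = n := by
  obtain ⟨k, rfl⟩ := h
  refine ⟨k * c.num, ?_⟩
  have := Rat.mul_den_eq_num c
  push_cast
  linear_combination (k : ℚ) * this

/-- realisation data for the six-dimensional algebra -/
noncomputable def data : RD (E6 ℚ) where
  R := RZ
  h1 u := by
    refine ⟨u.a.den * u.x.den * u.y.den * u.z.den * u.p.den * u.q.den, ?_, ?_⟩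
    · have := u.a.den_ne_zero
      have := u.x.den_ne_zero
      have := u.y.den_ne_zero
      have := u.z.den_ne_zero
      have := u.p.den_ne_zero
      have := u.q.den_ne_zero
      positivity
    · obtain ⟨n1, h1⟩ := den_mem u.a (u.a.den * u.x.den * u.y.den * u.z.den * u.p.den * u.q.den)
        ⟨u.x.den * u.y.den * u.z.den * u.p.den * u.q.den, by ring⟩
      obtain ⟨n2, h2⟩ := den_mem u.x (u.a.den * u.x.den * u.y.den * u.z.den * u.p.den * u.q.den)
        ⟨u.a.den * u.y.den * u.z.den * u.p.den * u.q.den, by ring⟩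
      obtain ⟨n3, h3⟩ := den_mem u.y (u.a.den * u.x.den * u.y.den * u.z.den * u.p.den * u.q.den)
        ⟨u.a.den * u.x.den * u.z.den * u.p.den * u.q.den, by ring⟩
      obtain ⟨n4, h4⟩ := den_mem u.z (u.a.den * u.x.den * u.y.den * u.z.den * u.p.den * u.q.den)
        ⟨u.a.den * u.x.den * u.y.den * u.p.den * u.q.den, by ring⟩
      obtain ⟨n5, h5⟩ := den_mem u.p (u.a.den * u.x.den * u.y.den * u.z.den * u.p.den * u.q.den)
        ⟨u.a.den * u.x.den * u.y.den * u.z.den * u.q.den, by ring⟩
      obtain ⟨n6, h6⟩ := den_mem u.q (u.a.den * u.x.den * u.y.den * u.z.den * u.p.den * u.q.den)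
        ⟨u.a.den * u.x.den * u.y.den * u.z.den * u.p.den, by ring⟩
      exact ⟨⟨n1, n2, n3, n4, n5, n6⟩, E6.ext h1 h2 h3 h4 h5 h6⟩
  h2 P hP hp c h := by
    ext
    · apply rat_zero P hP hp
      intro p hpP
      obtain ⟨m, hm, n, hn⟩ := h p hpP
      exact ⟨m, hm, n.a, congrArg E6.a hn⟩
    · apply rat_zero P hP hp
      intro p hpP
      obtain ⟨m, hm, n, hn⟩ := h p hpP
      exact ⟨m, hm, n.x, congrArg E6.x hn⟩
    · apply rat_zero P hP hp
      intro p hpP
      obtain ⟨m, hm, n, hn⟩ := h p hpP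
      exact ⟨m, hm, n.y, congrArg E6.y hn⟩
    · apply rat_zero P hP hp
      intro p hpP
      obtain ⟨m, hm, n, hn⟩ := h p hpP
      exact ⟨m, hm, n.z, congrArg E6.z hn⟩
    · apply rat_zero P hP hp
      intro p hpP
      obtain ⟨m, hm, n, hn⟩ := h p hpP
      exact ⟨m, hm, n.p, congrArg E6.p hn⟩
    · apply rat_zero P hP hp
      intro p hpP
      obtain ⟨m, hm, n, hn⟩ := h p hpP
      exact ⟨m, hm, n.q, congrArg E6.q hn⟩
  S1 := {eX, eY, eZ, eP, eQ}
  S1c := by
    apply Set.Finite.countable
    exact Set.toFinite _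
  S1R s hs := by
    simp only [Set.mem_insert_iff, Set.mem_singleton_iff] at hs
    rcases hs with rfl | rfl | rfl | rfl | rfl
    · exact ⟨⟨0, 1, 0, 0, 0, 0⟩, by ext <;> simp [eX]⟩
    · exact ⟨⟨0, 0, 1, 0, 0, 0⟩, by ext <;> simp [eY]⟩
    · exact ⟨⟨0, 0, 0, 1, 0, 0⟩, by ext <;> simp [eZ]⟩
    · exact ⟨⟨0, 0, 0, 0, 1, 0⟩, by ext <;> simp [eP]⟩
    · exact ⟨⟨0, 0, 0, 0, 0, 1⟩, by ext <;> simp [eQ]⟩
  S1sq s hs := by
    simp only [Set.mem_insert_iff, Set.mem_singleton_iff] at hs
    rcases hs with rfl | rfl | rfl | rfl | rfl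
    · ext <;> simp [eX]
    · ext <;> simp [eY]
    · ext <;> simp [eZ]
    · ext <;> simp [eP]
    · ext <;> simp [eQ]
  S2 := ∅
  S2c := Set.countable_empty
  S2R s hs := hs.elim
  S2sq s hs := hs.elim
  S2n s hs := hs.elim
  span K h1 hS _ := by
    rw [eq_top_iff]
    intro u _
    have : u = u.a • (1 : E6 ℚ) + u.x • eX + u.y • eY + u.z • eZ + u.p • eP + u.q • eQ := by
      ext <;> simp [eX, eY, eZ, eP, eQ]
    rw [this]
    have m1 := hS eX (by simp)
    have m2 := hS eY (by simp)
    have m3 := hS eZ (by simp)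
    have m4 := hS eP (by simp)
    have m5 := hS eQ (by simp)
    exact K.add_mem (K.add_mem (K.add_mem (K.add_mem (K.add_mem (K.smul_mem _ h1)
      (K.smul_mem _ m1)) (K.smul_mem _ m2)) (K.smul_mem _ m3)) (K.smul_mem _ m4)) (K.smul_mem _ m5)

theorem eX_mem : (eX : E6 ℚ) ∈ data.R := data.S1R _ (by simp [data])
theorem eY_mem : (eY : E6 ℚ) ∈ data.R := data.S1R _ (by simp [data])

theorem eX_eY : (eX : E6 ℚ) * eY ≠ eY * eX := by
  intro h
  have := congrArg E6.p h
  simp [eX, eY] at this

/-- only trivial quasi-idempotents -/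
theorem idem {b : E6 ℚ} {n : ℚ} (hn : n ≠ 0) (h : b * b = n • b) : b = 0 ∨ b = n • 1 := by
  have ha := congrArg E6.a h
  have hx := congrArg E6.x h
  have hy := congrArg E6.y h
  have hz := congrArg E6.z h
  have hp := congrArg E6.p h
  have hq := congrArg E6.q h
  simp only [mul_a, mul_x, mul_y, mul_z, mul_p, mul_q, smul_a, smul_x, smul_y, smul_z, smul_p,
    smul_q] at ha hx hy hz hp hq
  have h0 : b.a = 0 ∨ b.a = n := by
    have : b.a * (b.a - n) = 0 := by linear_combination ha
    rcases mul_eq_zero.1 this with h | h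
    · exact Or.inl h
    · exact Or.inr (sub_eq_zero.1 h)
  rcases h0 with h0 | h0
  · left
    rw [h0] at hx hy hz hp hq
    have x0 : b.x = 0 := by
      have : n * b.x = 0 := by linear_combination -hx
      exact (mul_eq_zero.1 this).resolve_left hn
    have y0 : b.y = 0 := by
      have : n * b.y = 0 := by linear_combination -hy
      exact (mul_eq_zero.1 this).resolve_left hn
    have z0 : b.z = 0 := by
      have : n * b.z = 0 := by linear_combination -hz
      exact (mul_eq_zero.1 this).resolve_left hn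
    rw [x0, y0, z0] at hp
    rw [y0, z0] at hq
    have p0 : b.p = 0 := by
      have : n * b.p = 0 := by linear_combination -hp
      exact (mul_eq_zero.1 this).resolve_left hn
    have q0 : b.q = 0 := by
      have : n * b.q = 0 := by linear_combination -hq
      exact (mul_eq_zero.1 this).resolve_left hn
    exact E6.ext h0 x0 y0 z0 p0 q0
  · right
    rw [h0] at hx hy hz hp hq
    have x0 : b.x = 0 := by
      have : n * b.x = 0 := by linear_combination hx
      exact (mul_eq_zero.1 this).resolve_left hn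
    have y0 : b.y = 0 := by
      have : n * b.y = 0 := by linear_combination hy
      exact (mul_eq_zero.1 this).resolve_left hn
    have z0 : b.z = 0 := by
      have : n * b.z = 0 := by linear_combination hz
      exact (mul_eq_zero.1 this).resolve_left hn
    rw [x0, y0, z0] at hp
    rw [y0, z0] at hq
    have p0 : b.p = 0 := by
      have : n * b.p = 0 := by linear_combination hp
      exact (mul_eq_zero.1 this).resolve_left hn
    have q0 : b.q = 0 := by
      have : n * b.q = 0 := by linear_combination hq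
      exact (mul_eq_zero.1 this).resolve_left hn
    apply E6.ext <;> simp [h0, x0, y0, z0, p0, q0]

end Pool.Agent.X280.CE.E6
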