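import Mathlib
import Pool.Agent.X280.CE.E6b

set_option autoImplicit false
set_option linter.unusedSectionVars false

namespace Pool.Agent.X280.CE.LC

/-- Cantor space -/
abbrev X := ℕ → Bool

/-- locally constant functions with values in the six-dimensional algebra -/
abbrev EE := LocallyConstant X (E6 ℚ)

instance : Nontrivial (E6 ℚ) := ⟨0, 1, fun h => by
  have := congrArg E6.a h
  simp at this⟩

/-- indicator functions times constants -/
noncomputable def ind (U : TopologicalSpace.Clopens X) (s : E6 ℚ) : EE :=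
  LocallyConstant.charFn (E6 ℚ) U.isClopen * LocallyConstant.const X s

open Classical in
theorem ind_apply (U : TopologicalSpace.Clopens X) (s : E6 ℚ) (x : X) :
    ind U s x = if x ∈ U then s else 0 := by
  change LocallyConstant.charFn (E6 ℚ) U.isClopen x * s = _
  split_ifs with h
  · rw [(LocallyConstant.charFn_eq_one (E6 ℚ) x U.isClopen).2 h, one_mul]
  · rw [(LocallyConstant.charFn_eq_zero (E6 ℚ) x U.isClopen).2 h, zero_mul]

/-- integral functions -/
def RR : Subring EE where
  carrier := {f | ∀ x, f x ∈ E6.RZ}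
  mul_mem' := fun hf hg x => E6.RZ.mul_mem (hf x) (hg x)
  one_mem' := fun _ => E6.RZ.one_mem
  add_mem' := fun hf hg x => E6.RZ.add_mem (hf x) (hg x)
  zero_mem' := fun _ => E6.RZ.zero_mem
  neg_mem' := fun hf x => E6.RZ.neg_mem (hf x)

theorem fin_common (s : Set (E6 ℚ)) (hs : s.Finite) : ∃ N : ℕ, N ≠ 0 ∧ ∀ u ∈ s, (N : ℚ) • u ∈ E6.RZ := by
  induction s, hs using Set.Finite.induction_on with
  | empty => exact ⟨1, one_ne_zero, fun u hu => hu.elim⟩
  | @insert a s _ _ ih =>
    obtain ⟨N, hN, h⟩ := ih
    obtain ⟨M, hM, h'⟩ := E6.data.h1 a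
    refine ⟨N * M, mul_ne_zero hN hM, ?_⟩
    intro u hu
    rcases hu with rfl | hu
    · rw [Nat.cast_mul, mul_smul]
      exact nat_smul_mem N h'
    · rw [Nat.cast_mul, mul_comm, mul_smul]
      exact nat_smul_mem M (h u hu)

theorem countable_clopens : Countable (TopologicalSpace.Clopens X) := by
  rw [TopologicalSpace.Clopens.countable_iff_secondCountable]
  infer_instance

theorem eq_sum (f : EE) : ∃ (s : Finset (E6 ℚ)) (U : E6 ℚ → TopologicalSpace.Clopens X),
    f = ∑ v ∈ s, ind (U v) v := by
  classical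
  have hfin := f.range_finite
  refine ⟨hfin.toFinset, fun v => ⟨f ⁻¹' {v}, f.isLocallyConstant.isClopen_fiber v⟩, ?_⟩
  ext1 x
  have h1 : (∑ v ∈ hfin.toFinset, ind ⟨f ⁻¹' {v}, f.isLocallyConstant.isClopen_fiber v⟩ v : EE) x =
      ∑ v ∈ hfin.toFinset, ind ⟨f ⁻¹' {v}, f.isLocallyConstant.isClopen_fiber v⟩ v x := by
    have : ∀ (t : Finset (E6 ℚ)) (g : E6 ℚ → EE), (∑ v ∈ t, g v) x = ∑ v ∈ t, g v x := by
      intro t g
      induction t using Finset.induction_on with
      | empty => simp
      | insert a t ha ih => rw [Finset.sum_insert ha, Finset.sum_insert ha, ← ih]; rfl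
    exact this _ _
  rw [h1, Finset.sum_eq_single (f x)]
  · rw [ind_apply, if_pos]
    rfl
  · intro v _ hv
    rw [ind_apply, if_neg]
    intro h
    exact hv h.symm
  · intro h
    exact absurd (hfin.mem_toFinset.2 ⟨x, rfl⟩) h

theorem ind_mem {s : E6 ℚ} (hs : s ∈ E6.RZ) (U : TopologicalSpace.Clopens X) : ind U s ∈ RR := by
  classical
  intro x
  rw [ind_apply]
  split_ifs
  · exact hs
  · exact E6.RZ.zero_mem

theorem ind_mul (U : TopologicalSpace.Clopens X) (s t : E6 ℚ) : ind U s * ind U t = ind U (s * t) := by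
  classical
  ext1 x
  change ind U s x * ind U t x = _
  rw [ind_apply, ind_apply, ind_apply]
  split_ifs <;> simp

/-- realisation data -/
noncomputable def data : RD EE where
  R := RR
  h1 f := by
    obtain ⟨N, hN, h⟩ := fin_common _ f.range_finite
    exact ⟨N, hN, fun x => h _ ⟨x, rfl⟩⟩
  h2 P hP hp c h := by
    ext1 x
    apply E6.data.h2 P hP hp
    intro p hpP
    obtain ⟨m, hm, hm2⟩ := h p hpP
    exact ⟨m, hm, hm2 x⟩
  S1 := Set.range (fun q : TopologicalSpace.Clopens X × E6.data.S1 => ind q.1 q.2)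
  S1c := by
    have := countable_clopens
    have h2 : Countable E6.data.S1 := E6.data.S1c
    exact Set.countable_range _
  S1R := by
    rintro _ ⟨q, rfl⟩
    exact ind_mem (E6.data.S1R _ q.2.2) q.1
  S1sq := by
    rintro _ ⟨q, rfl⟩
    classical
    change ind q.1 q.2 * ind q.1 q.2 = 0
    rw [ind_mul, E6.data.S1sq _ q.2.2]
    ext1 x
    rw [ind_apply]
    split_ifs <;> rfl
  S2 := Set.range (fun U : TopologicalSpace.Clopens X => ind U 1)
  S2c := by
    have := countable_clopens
    exact Set.countable_range _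
  S2R := by
    rintro _ ⟨U, rfl⟩
    exact ind_mem E6.RZ.one_mem U
  S2sq := by
    rintro _ ⟨U, rfl⟩
    change ind U 1 * ind U 1 = ind U 1
    rw [ind_mul, one_mul]
  S2n := by
    rintro _ ⟨U, rfl⟩
    refine ⟨Uᶜ, ?_⟩
    classical
    ext1 x
    change ind Uᶜ 1 x = 1 - ind U 1 x
    rw [ind_apply, ind_apply]
    by_cases h : x ∈ U
    · have h' : x ∉ Uᶜ := fun h2 => h2 h
      rw [if_pos h, if_neg h', sub_self]
    · have h' : x ∈ Uᶜ := h
      rw [if_neg h, if_pos h', sub_zero]
  span K h1 hS1 hS2 := by
    rw [eq_top_iff]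
    intro f _
    obtain ⟨s, U, rfl⟩ := eq_sum f
    apply Submodule.sum_mem
    intro v _
    have key : ∀ w : E6 ℚ, ind (U v) w ∈ K := by
      intro w
      let K' : Submodule ℚ (E6 ℚ) :=
        { carrier := {w | ind (U v) w ∈ K}
          add_mem' := by
            intro a b ha hb
            have : ind (U v) (a + b) = ind (U v) a + ind (U v) b := by
              classical
              ext1 x
              change ind (U v) (a + b) x = ind (U v) a x + ind (U v) b x
              simp only [ind_apply]
              split_ifs <;> simp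
            change ind (U v) (a + b) ∈ K
            rw [this]
            exact K.add_mem ha hb
          zero_mem' := by
            have : ind (U v) 0 = 0 := by
              classical
              ext1 x
              rw [ind_apply]
              split_ifs <;> rfl
            change ind (U v) 0 ∈ K
            rw [this]
            exact K.zero_mem
          smul_mem' := by
            intro c a ha
            have : ind (U v) (c • a) = c • ind (U v) a := by
              classical
              ext1 x
              change ind (U v) (c • a) x = c • ind (U v) a x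
              simp only [ind_apply]
              split_ifs <;> simp
            change ind (U v) (c • a) ∈ K
            rw [this]
            exact K.smul_mem c ha }
      have hK' : K' = ⊤ := E6.data.span K' (hS2 _ ⟨U v, rfl⟩)
        (fun s hs => hS1 _ ⟨(U v, ⟨s, hs⟩), rfl⟩) (fun s hs => hs.elim)
      have : w ∈ K' := by rw [hK']; trivial
      exact this
    exact key v

theorem center_ind {c : E6 ℚ} (hc : c ∈ Subring.center (E6 ℚ)) (U : TopologicalSpace.Clopens X) :
    ind U c ∈ Subring.center EE := by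
  classical
  rw [Subring.mem_center_iff] at hc ⊢
  intro g
  ext1 x
  change g x * ind U c x = ind U c x * g x
  rw [ind_apply]
  split_ifs
  · exact hc _
  · simp

theorem strong (f : EE) (hf : f ≠ 0) :
    ∃ c ∈ Subring.center EE, f * c ∈ Subring.center EE ∧ f * c ≠ 0 := by
  classical
  obtain ⟨x0, hx0⟩ : ∃ x, f x ≠ 0 := by
    by_contra h
    push Not at h
    exact hf (LocallyConstant.ext h)
  obtain ⟨c, hc, hvc, hvc0⟩ := E6.centEss (f x0) hx0
  let U : TopologicalSpace.Clopens X := ⟨f ⁻¹' {f x0}, f.isLocallyConstant.isClopen_fiber _⟩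
  have hx0U : x0 ∈ U := rfl
  have hfc : f * ind U c = ind U (f x0 * c) := by
    ext1 x
    change f x * ind U c x = ind U (f x0 * c) x
    rw [ind_apply, ind_apply]
    split_ifs with h
    · have : f x = f x0 := h
      rw [this]
    · simp
  refine ⟨ind U c, center_ind hc U, ?_, ?_⟩
  · rw [hfc]
    exact center_ind hvc U
  · rw [hfc]
    intro h
    have h1 := congrArg (fun g : EE => g x0) h
    change ind U (f x0 * c) x0 = 0 at h1
    rw [ind_apply, if_pos hx0U] at h1
    exact hvc0 h1

/-- splitting of clopen sets -/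
theorem split (U : TopologicalSpace.Clopens X) (x : X) (hx : x ∈ U) :
    ∃ U1 U2 : TopologicalSpace.Clopens X, (∃ y, y ∈ U1) ∧ (∃ y, y ∈ U2) ∧ U1 ≤ U ∧ U2 ≤ U ∧
      (∀ y, y ∈ U1 → y ∈ U2 → False) ∧ (∀ y, y ∈ U → y ∈ U1 ∨ y ∈ U2) := by
  obtain ⟨I, u, hu, hsub⟩ := isOpen_pi_iff.1 U.isClopen.isOpen x hx
  obtain ⟨n, hn⟩ := Infinite.exists_notMem_finset I
  let W : TopologicalSpace.Clopens X := ⟨(fun z : X => z n) ⁻¹' {x n},
    (isClopen_discrete _).preimage (continuous_apply n)⟩
  let y : X := Function.update x n (!(x n))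
  have hyU : y ∈ U := by
    apply hsub
    intro a ha
    have hne : a ≠ n := fun h => hn (h ▸ ha)
    have : y a = x a := Function.update_of_ne hne _ _
    rw [this]
    exact (hu a ha).2
  have hyW : y ∉ W := by
    intro h
    have h1 : y n = x n := h
    have h2 : y n = !(x n) := Function.update_self _ _ _
    rw [h2] at h1
    cases hxn : x n <;> rw [hxn] at h1 <;> simp at h1
  refine ⟨U ⊓ W, U ⊓ Wᶜ, ⟨x, hx, rfl⟩, ⟨y, hyU, hyW⟩, inf_le_left, inf_le_left, ?_, ?_⟩
  · intro z hz hz'
    exact hz'.2 hz.2
  · intro z hz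
    by_cases h : z ∈ W
    · exact Or.inl ⟨hz, h⟩
    · exact Or.inr ⟨hz, h⟩

/-- idempotents are indicator functions -/
theorem idem_eq (e : EE) (he : e * e = e) : ∃ U : TopologicalSpace.Clopens X, e = ind U 1 := by
  classical
  refine ⟨⟨e ⁻¹' {1}, e.isLocallyConstant.isClopen_fiber _⟩, ?_⟩
  ext1 x
  rw [ind_apply]
  have hx : e x * e x = (1 : ℚ) • e x := by
    rw [one_smul]
    exact congrArg (fun g : EE => g x) he
  rcases E6.idem one_ne_zero hx with h | h
  · rw [if_neg, h]
    intro h2
    have h3 : e x = 1 := h2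
    rw [h] at h3
    exact zero_ne_one h3
  · rw [one_smul] at h
    rw [if_pos, h]
    exact h

end Pool.Agent.X280.CE.LC
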